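import Pool.Agent.DBX.DIA.Stmts

set_option autoImplicit false

/-! # MP_2c751f_ag, squad DBX, area DIA: module ASG -/

namespace Pool.Agent.DBX.DIA

open KaehlerDifferential Pool.Agent.DBE Pool.Agent.DBX Pool.Agent.DBX.DIB Pool.Agent.DBX.DIA2

universe u

namespace ASG_

section

variable {Λ : Type} {Q : Type u} [CommRing Λ] [CommRing Q] [Algebra Λ Q]

/-- elements which are multiplied into `A` by a power of `g` -/
def sat (A : Subalgebra Λ Q) (g : Q) (hg : g ∈ A) : Subalgebra Λ Q where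
  carrier := {x | ∃ e : ℕ, x * g ^ e ∈ A}
  mul_mem' := by
    rintro x y ⟨e, he⟩ ⟨f, hf⟩
    refine ⟨e + f, ?_⟩
    have h : x * y * g ^ (e + f) = (x * g ^ e) * (y * g ^ f) := by ring
    rw [h]
    exact A.mul_mem he hf
  add_mem' := by
    rintro x y ⟨e, he⟩ ⟨f, hf⟩
    refine ⟨e + f, ?_⟩
    have h : (x + y) * g ^ (e + f) = (x * g ^ e) * g ^ f + (y * g ^ f) * g ^ e := by ring
    rw [h]
    exact A.add_mem (A.mul_mem he (A.pow_mem hg f)) (A.mul_mem hf (A.pow_mem hg e))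
  algebraMap_mem' := by
    intro r
    refine ⟨0, ?_⟩
    rw [pow_zero, mul_one]
    exact A.algebraMap_mem r

variable {m : ℕ} (h : Fin m → Qˣ) (A : Fin m → Subalgebra Λ Q)
  (hA : ∀ v w, (h w : Q) * ((h v)⁻¹ : Qˣ) ∈ A v)
  (hg : ∀ v w, A w ≤ Algebra.adjoin Λ ((A v : Set Q) ∪ {(h v : Q) * ((h w)⁻¹ : Qˣ)}))

include hA in
theorem one (σ : Finset (Fin m)) : Prg Λ h σ ≤ ⨆ w ∈ σ, A w := by
  unfold Prg
  rw [Algebra.adjoin_le_iff]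
  rintro z ⟨v, hv, w, rfl⟩
  exact (le_iSup₂ (f := fun w (_ : w ∈ σ) => A w) v hv) (hA v w)

include hg in
theorem two (σ : Finset (Fin m)) (v : Fin m) (B : Subalgebra Λ Q) (hB : A v ≤ B)
    (hB2 : ∀ w ∈ σ, (h v : Q) * ((h w)⁻¹ : Qˣ) ∈ B) : (⨆ w ∈ σ, A w) ≤ B := by
  refine iSup₂_le ?_
  intro w hw
  refine (hg v w).trans ?_
  rw [Algebra.adjoin_le_iff]
  rintro z (hz | hz)
  · exact hB hz
  · rw [Set.mem_singleton_iff] at hz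
    subst hz
    exact hB2 w hw

include hA hg in
theorem three (σ : Finset (Fin m)) (v : Fin m) (x : Q) (hx : x ∈ ⨆ w ∈ σ, A w) : ∃ e : ℕ,
    x * (∏ w ∈ σ, (h w : Q) * ((h v)⁻¹ : Qˣ)) ^ e ∈ A v := by
  have hgm : (∏ w ∈ σ, (h w : Q) * ((h v)⁻¹ : Qˣ)) ∈ A v :=
    (A v).prod_mem (fun w _ => hA v w)
  refine two h A hg σ v (sat (A v) _ hgm) ?_ ?_ hx
  · intro y hy
    refine ⟨0, ?_⟩
    rw [pow_zero, mul_one]
    exact hy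
  · intro w hw
    refine ⟨1, ?_⟩
    rw [pow_one, ← Finset.mul_prod_erase σ _ hw, ← mul_assoc]
    have h1 : (h v : Q) * ((h w)⁻¹ : Qˣ) * ((h w : Q) * ((h v)⁻¹ : Qˣ)) = 1 := by
      have e1 : (((h w)⁻¹ : Qˣ) : Q) * (h w : Q) = 1 := Units.inv_mul _
      have e2 : (h v : Q) * (((h v)⁻¹ : Qˣ) : Q) = 1 := Units.mul_inv _
      calc (h v : Q) * ((h w)⁻¹ : Qˣ) * ((h w : Q) * ((h v)⁻¹ : Qˣ))
          = ((((h w)⁻¹ : Qˣ) : Q) * (h w : Q)) * ((h v : Q) * (((h v)⁻¹ : Qˣ) : Q)) := by ring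
        _ = 1 := by rw [e1, e2, one_mul]
    rw [h1, one_mul]
    exact (A v).prod_mem (fun w _ => hA v w)

include hA hg in
theorem four (σ τ : Finset (Fin m)) (hσ : σ.Nonempty) (_hst : σ ⊆ τ) (x : Q)
    (hx : x ∈ ⨆ w ∈ τ, A w) :
    x ∈ Submodule.span (Prg Λ h τ) ((⨆ w ∈ σ, A w : Subalgebra Λ Q) : Set Q) := by
  obtain ⟨v, hv⟩ := hσ
  obtain ⟨e, he⟩ := three h A hA hg τ v x hx
  have h1 : (∏ w ∈ τ, (h v : Q) * ((h w)⁻¹ : Qˣ)) ∈ Prg Λ h τ := by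
    refine (Prg Λ h τ).prod_mem (fun w hw => ?_)
    exact Algebra.subset_adjoin ⟨w, hw, v, rfl⟩
  have h2 : (∏ w ∈ τ, (h v : Q) * ((h w)⁻¹ : Qˣ)) * (∏ w ∈ τ, (h w : Q) * ((h v)⁻¹ : Qˣ)) = 1 := by
    rw [← Finset.prod_mul_distrib]
    refine Finset.prod_eq_one (fun w _ => ?_)
    have e1 : (((h w)⁻¹ : Qˣ) : Q) * (h w : Q) = 1 := Units.inv_mul _
    have e2 : (h v : Q) * (((h v)⁻¹ : Qˣ) : Q) = 1 := Units.mul_inv _
    calc (h v : Q) * ((h w)⁻¹ : Qˣ) * ((h w : Q) * ((h v)⁻¹ : Qˣ))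
        = ((((h w)⁻¹ : Qˣ) : Q) * (h w : Q)) * ((h v : Q) * (((h v)⁻¹ : Qˣ) : Q)) := by ring
      _ = 1 := by rw [e1, e2, one_mul]
  have h3 : x * (∏ w ∈ τ, (h w : Q) * ((h v)⁻¹ : Qˣ)) ^ e ∈
      Submodule.span (Prg Λ h τ) ((⨆ w ∈ σ, A w : Subalgebra Λ Q) : Set Q) := by
    apply Submodule.subset_span
    exact (le_iSup₂ (f := fun w (_ : w ∈ σ) => A w) v hv) he
  have h4 := Submodule.smul_mem _
    (⟨(∏ w ∈ τ, (h v : Q) * ((h w)⁻¹ : Qˣ)) ^ e, (Prg Λ h τ).pow_mem h1 e⟩ : Prg Λ h τ) h3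
  have h5 : (⟨(∏ w ∈ τ, (h v : Q) * ((h w)⁻¹ : Qˣ)) ^ e, (Prg Λ h τ).pow_mem h1 e⟩ : Prg Λ h τ) •
      (x * (∏ w ∈ τ, (h w : Q) * ((h v)⁻¹ : Qˣ)) ^ e) = x := by
    change (∏ w ∈ τ, (h v : Q) * ((h w)⁻¹ : Qˣ)) ^ e *
      (x * (∏ w ∈ τ, (h w : Q) * ((h v)⁻¹ : Qˣ)) ^ e) = x
    rw [mul_left_comm, ← mul_pow, h2, one_pow, mul_one]
  rwa [h5] at h4

end

end ASG_

theorem asg_proof : Stmt_ASG.{u} := by
  intro Λ Q _ _ _ m h A hA hg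
  refine ⟨fun σ => ASG_.one h A hA σ, fun σ v _ B hB hB2 => ASG_.two h A hg σ v B hB hB2,
    fun σ v _ x hx => ASG_.three h A hA hg σ v x hx,
    fun σ τ hσ hst x hx => ASG_.four h A hA hg σ τ hσ hst x hx⟩

end Pool.Agent.DBX.DIA
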