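import Pool.Agent.DBX.DIA.Stmts

set_option autoImplicit false

namespace Pool.Agent.DBX.DIA

open KaehlerDifferential Pool.Agent.DBE Pool.Agent.DBX Pool.Agent.DBX.DIB Pool.Agent.DBX.DIA2

universe u

noncomputable section

namespace BIN_

theorem T_mul {p : ℕ} {R : Type u} [CommRing R] [Algebra (ZMod p) R] {m N : ℕ}
    (X : BMod p R m N) (hX : X.Good) (s : Finset (Fin m)) (hs : s.Nonempty) :
    ∃ a ∈ X.lat.A s, X.T X.c' s = a * X.T X.c s := by
  have hle : X.A (s.min' hs) ≤ X.As s :=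
    le_iSup₂_of_le (f := fun v (_ : v ∈ s) => X.A v) (s.min' hs) (s.min'_mem hs) le_rfl
  refine ⟨mon (X.t (s.min' hs)) (fun i => X.c' (s.min' hs) i - X.c (s.min' hs) i), ?_, ?_⟩
  · show mon (X.t (s.min' hs)) (fun i => X.c' (s.min' hs) i - X.c (s.min' hs) i) ∈ X.As s
    exact prod_mem (fun i _ => pow_mem (hle (hX.t_mem (s.min' hs) i)) _)
  · have h1 : X.T X.c' s = mon (X.t (s.min' hs)) (X.c' (s.min' hs)) := dif_pos hs
    have h2 : X.T X.c s = mon (X.t (s.min' hs)) (X.c (s.min' hs)) := dif_pos hs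
    rw [h1, h2]
    unfold mon
    rw [← Finset.prod_mul_distrib]
    refine Finset.prod_congr rfl (fun i _ => ?_)
    rw [← pow_add]
    congr 1
    have h3 := hX.c_le (s.min' hs) i
    have h4 := hX.c_supp (s.min' hs) i
    show X.c' (s.min' hs) i = X.c' (s.min' hs) i - X.c (s.min' hs) i + X.c (s.min' hs) i
    omega

end BIN_

open BIN_ in
theorem bin_proof (hCHT : Stmt_CHT.{u}) (hNIL : Stmt_NIL.{u}) (hGOO : Stmt_GOO.{u})
    (hCRT : Stmt_CRT.{u}) (hFNT : Stmt_FNT.{u}) (hDIB : Pool.Agent.DBX.DIB.Stmt_DIB.{u}) :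
    Stmt_BIN.{u} := by
  intro p _ R _ _ _ m N X F hX hF hN z z0 hz hcz
  by_cases hm : m = 0
  · subst hm
    have h0 : ∀ s : Finset (Fin 0), s = ∅ := fun s => Finset.eq_empty_of_isEmpty s
    have h1 : ∀ s : Finset (Fin 0), ¬ s.Nonempty := fun s hs => by
      rw [h0 s] at hs
      exact Finset.not_nonempty_empty hs
    have h2 : cd (0 : Finset (Fin 0) → R) = 0 := by
      funext s
      rw [h0 s]
      rfl
    refine ⟨0, 0, rfl, fun s hs => absurd hs (h1 s), h2, rfl,
      fun s hs => absurd hs (h1 s), ?_⟩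
    rw [h2, add_zero]
    funext s
    rw [h0 s]
    exact z0
  · have v : Fin m := ⟨0, Nat.pos_of_ne_zero hm⟩
    have hch := hCHT p R m N X hX {v} v (Finset.mem_singleton_self v)
    have hnil := hNIL p N R (X.As {v}) (X.t v) hch hN
    have hg := hGOO p R m N X F hX hF
    have hc := hCRT p R m N X F hX hF
    exact hDIB p (Fin m) (ZMod p) R F X.lat (X.T X.c) (X.T X.c') hnil hg.1 hg.2 hc.1 hc.2
      (fun s hs => T_mul X hX s hs) (hFNT p R m N X hX) z z0 hz hcz

end

end Pool.Agent.DBX.DIA
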