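import Pool.Agent.DBX.DIA.Stmts

set_option autoImplicit false

/-! # CHT: intersections of charts are charts -/

namespace Pool.Agent.DBX.DIA

open KaehlerDifferential Pool.Agent.DBE Pool.Agent.DBX Pool.Agent.DBX.DIB Pool.Agent.DBX.DIA2

universe u

theorem cht_proof (hASG : Stmt_ASG.{u}) (hLCA : Stmt_LCA.{u}) : Stmt_CHT.{u} := by
  intro p _ R _ _ m N X hX σ v hv
  obtain ⟨_, _, h3, _⟩ := hASG (ZMod p) R m X.h X.A hX.h_mem hX.glue
  have hle' : ∀ w ∈ σ, X.A w ≤ X.As σ := fun w hw =>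
    le_iSup₂_of_le (f := fun v (_ : v ∈ σ) => X.A v) w hw le_rfl
  have hle : X.A v ≤ X.As σ := hle' v hv
  refine ⟨fun i => hle (hX.t_mem v i), ?_, ?_⟩
  · obtain ⟨g, hgdef⟩ : ∃ g : Rˣ, g = ∏ w ∈ σ, X.h w * (X.h v)⁻¹ := ⟨_, rfl⟩
    have hg : (g : R) = ∏ w ∈ σ, (X.h w : R) * ((X.h v)⁻¹ : Rˣ) := by
      rw [hgdef, Units.coe_prod]
      rfl
    have hgA : (g : R) ∈ X.A v := by
      rw [hg]
      exact prod_mem fun w _ => hX.h_mem v w
    have hginv : ((g⁻¹ : Rˣ) : R) ∈ X.As σ := by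
      have e : ((g⁻¹ : Rˣ) : R) = ∏ w ∈ σ, (X.h v : R) * ((X.h w)⁻¹ : Rˣ) := by
        rw [hgdef, ← Finset.prod_inv_distrib, Units.coe_prod]
        refine Finset.prod_congr rfl fun w _ => ?_
        rw [mul_inv_rev, _root_.inv_inv]
        rfl
      rw [e]
      exact prod_mem fun w hw => hle' w hw (hX.h_mem w v)
    have key := (hLCA (ZMod p) R (X.A v) g hgA).2 (X.As σ) hle hginv
      (fun x hx => by rw [hg]; exact h3 σ v hv x hx) _ _ (hX.etale v)
    convert key using 1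
    apply MvPolynomial.ringHom_ext
    · intro a
      apply Subtype.ext
      simp
    · intro i
      apply Subtype.ext
      simp
  · refine ⟨(∏ w, (X.h w : R) * ((X.h v)⁻¹ : Rˣ)) * (∏ i, (X.t v i : R) ^ X.c v i), ?_, ?_, ?_⟩
    · exact mul_mem (prod_mem fun w _ => hle (hX.h_mem v w))
        (prod_mem fun i _ => pow_mem (hle (hX.t_mem v i)) _)
    · refine IsUnit.mul ?_ ?_
      · refine (Finset.univ : Finset (Fin m)).prod_induction _ IsUnit (fun a b ha hb => ha.mul hb)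
          isUnit_one fun w _ => (Units.isUnit _).mul (Units.isUnit _)
      · refine (Finset.univ : Finset (Fin N)).prod_induction _ IsUnit (fun a b ha hb => ha.mul hb)
          isUnit_one fun i _ => (Units.isUnit _).pow _
    · intro x
      obtain ⟨e, he⟩ := hX.loc v x
      refine ⟨e, ?_⟩
      rw [mul_pow, ← mul_assoc]
      exact hle he

end Pool.Agent.DBX.DIA
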