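import Pool.Agent.DBX.DIA.Stmts

set_option autoImplicit false

/-! # DBX, area DIA: module COF (finiteness of the logarithmic forms) -/

namespace Pool.Agent.DBX.DIA

open KaehlerDifferential Pool.Agent.DBE Pool.Agent.DBX Pool.Agent.DBX.DIB Pool.Agent.DBX.DIA2

universe u

theorem cof_proof (hDIF : DIA2.Stmt_DIF.{u}) (hFRM : DIA2.Stmt_FRM.{u}) : Stmt_COF.{u} := by
  classical
  intro p _ N R _ _ _ A P t hC hP hG
  obtain ⟨G, hG1, hG2⟩ := hG
  obtain ⟨θ, hθ⟩ := hDIF p N R A t hC
  obtain ⟨co, _, hco, hLM, _⟩ := hFRM p N R A t hC θ hθ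
  have hsing : ∀ (I : Finset (Fin N)) (r : R), r ∈ Submodule.span P (G : Set R) →
      co (Pi.single I r) ∈ Submodule.span P
        (((G ×ˢ Finset.univ).image (fun q : R × Finset (Fin N) => co (Pi.single q.2 q.1)) :
          Finset (DR (ZMod p) R)) : Set (DR (ZMod p) R)) := by
    intro I r hr
    induction hr using Submodule.span_induction with
    | mem x hx =>
      apply Submodule.subset_span
      rw [Finset.mem_coe, Finset.mem_image]
      exact ⟨(x, I), Finset.mem_product.mpr ⟨hx, Finset.mem_univ _⟩, rfl⟩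
    | zero =>
      rw [Pi.single_zero, map_zero]
      exact Submodule.zero_mem _
    | add x y _ _ hx hy =>
      rw [Pi.single_add, map_add]
      exact Submodule.add_mem _ hx hy
    | smul a x _ hx =>
      have h1 : (Pi.single I (a • x) : Finset (Fin N) → R) =
          fun J => (a : R) * (Pi.single I x : Finset (Fin N) → R) J := by
        funext J
        by_cases hJ : J = I
        · subst hJ
          rw [Pi.single_eq_same, Pi.single_eq_same]; rfl
        · rw [Pi.single_eq_of_ne hJ, Pi.single_eq_of_ne hJ, mul_zero]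
      rw [h1, ← hco]
      have h2 : fn (ZMod p) R (a : R) * co (Pi.single I x) = a • co (Pi.single I x) := by
        rw [← Algebra.smul_def]; rfl
      rw [h2]
      exact Submodule.smul_mem _ a hx
  refine ⟨(G ×ˢ Finset.univ).image (fun q : R × Finset (Fin N) => co (Pi.single q.2 q.1)),
    ?_, ?_⟩
  · intro x hx
    rw [Finset.mem_image] at hx
    obtain ⟨q, hq, rfl⟩ := hx
    rw [hLM]
    intro I
    by_cases hI : I = q.2
    · rw [hI, Pi.single_eq_same]
      exact hG1 (Finset.mem_product.mp hq).1
    · rw [Pi.single_eq_of_ne hI]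
      exact A.zero_mem
  · intro x hx
    obtain ⟨a, rfl⟩ := co.surjective x
    rw [hLM] at hx
    have h1 : a = ∑ I, Pi.single I (a I) := (Finset.univ_sum_single a).symm
    rw [h1, map_sum]
    exact Submodule.sum_mem _ (fun I _ => hsing I (a I) (hG2 _ (hx I)))

end Pool.Agent.DBX.DIA
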