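import Pool.Agent.DBX.DIA.Stmts

/-!
# DBX, area DIA: the lattices are coherent
-/

set_option autoImplicit false

namespace Pool.Agent.DBX.DIA

open KaehlerDifferential Pool.Agent.DBE Pool.Agent.DBX Pool.Agent.DBX.DIB Pool.Agent.DBX.DIA2

universe u

noncomputable section

namespace COH_

variable {p : ℕ} [Fact p.Prime] {R : Type u} [CommRing R] [Algebra (ZMod p) R]

theorem LM_mono {N : ℕ} {A B : Subalgebra (ZMod p) R} (h : A ≤ B) (t : Fin N → Rˣ) :
    LM A t ≤ LM B t := by
  apply Subring.closure_mono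
  apply Set.union_subset_union_left
  exact Set.image_mono h

theorem As_mono {m N : ℕ} (X : BMod p R m N) {σ τ : Finset (Fin m)} (h : σ ⊆ τ) :
    X.As σ ≤ X.As τ := biSup_mono (fun _ hi => h hi)

theorem fn_smul (P : Subalgebra (ZMod p) R) (a : P) (x : DR (ZMod p) R) :
    a • x = fn (ZMod p) R (a : R) * x := by
  rw [Algebra.smul_def]
  rfl

theorem fn_smul' (a : R) (x : DR (ZMod p) R) :
    a • x = fn (ZMod p) R (a : R) * x :=
  Algebra.smul_def a x

/-- left multiplication by a function maps spans to spans -/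
theorem mul_span (P : Subalgebra (ZMod p) R) (f : R) (S : Set (DR (ZMod p) R))
    (T : Set (DR (ZMod p) R)) (h : ∀ x ∈ S, fn (ZMod p) R f * x ∈ T) (x : DR (ZMod p) R)
    (hx : x ∈ Submodule.span P S) : fn (ZMod p) R f * x ∈ Submodule.span P T := by
  induction hx using Submodule.span_induction with
  | mem x hx => exact Submodule.subset_span (h x hx)
  | zero => rw [mul_zero]; exact zero_mem _
  | add x y _ _ hx hy => rw [mul_add]; exact add_mem hx hy
  | smul a x _ hx =>
    have e : fn (ZMod p) R f * a • x = a • (fn (ZMod p) R f * x) := by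
      rw [fn_smul, fn_smul, ← mul_assoc, ← mul_assoc, ← map_mul, ← map_mul, mul_comm]
    rw [e]
    exact Submodule.smul_mem _ _ hx

theorem fn_span (P : Subalgebra (ZMod p) R) (S : Set R)
    (T : Set (DR (ZMod p) R)) (h : ∀ x ∈ S, fn (ZMod p) R x ∈ T) (x : R)
    (hx : x ∈ Submodule.span P S) : fn (ZMod p) R x ∈ Submodule.span P T := by
  induction hx using Submodule.span_induction with
  | mem x hx => exact Submodule.subset_span (h x hx)
  | zero => rw [map_zero]; exact zero_mem _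
  | add x y _ _ hx hy => rw [map_add]; exact add_mem hx hy
  | smul a x _ hx =>
    have e : fn (ZMod p) R (a • x) = a • (fn (ZMod p) R x) := by
      rw [fn_smul, ← map_mul]
      rfl
    rw [e]
    exact Submodule.smul_mem _ _ hx

/-- the span of a subring is closed under multiplication -/
theorem span_mul (P : Subalgebra (ZMod p) R) (S : Subring (DR (ZMod p) R)) (x y : DR (ZMod p) R)
    (hx : x ∈ Submodule.span P (S : Set (DR (ZMod p) R)))
    (hy : y ∈ Submodule.span P (S : Set (DR (ZMod p) R))) :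
    x * y ∈ Submodule.span P (S : Set (DR (ZMod p) R)) := by
  have h := Submodule.mul_mem_mul hx hy
  rw [Submodule.span_mul_span] at h
  refine Submodule.span_mono ?_ h
  rintro _ ⟨a, ha, b, hb, rfl⟩
  exact S.mul_mem ha hb

theorem span_LM {N : ℕ} (P A B : Subalgebra (ZMod p) R) (t : Fin N → Rˣ)
    (h : ∀ x ∈ B, x ∈ Submodule.span P (A : Set R)) (x : DR (ZMod p) R) (hx : x ∈ LM B t) :
    x ∈ Submodule.span P (LM A t : Set (DR (ZMod p) R)) := by
  have one_mem : (1 : DR (ZMod p) R) ∈ Submodule.span P (LM A t : Set (DR (ZMod p) R)) :=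
    Submodule.subset_span (one_mem (LM A t))
  unfold LM at hx
  induction hx using Subring.closure_induction with
  | mem x hx =>
    rcases hx with ⟨a, ha, rfl⟩ | ⟨i, rfl⟩
    · exact fn_span P (A : Set R) _ (fun y hy => Subring.subset_closure (Or.inl ⟨y, hy, rfl⟩)) a
        (h a ha)
    · exact Submodule.subset_span (Subring.subset_closure (Or.inr ⟨i, rfl⟩))
  | zero => exact zero_mem _
  | one => exact one_mem
  | add x y _ _ hx hy => exact add_mem hx hy
  | neg x _ hx => exact neg_mem hx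
  | mul x y _ _ hx hy => exact span_mul P _ x y hx hy

end COH_

open COH_

theorem coh_proof (hASG : Stmt_ASG.{u}) (hCHT : Stmt_CHT.{u}) (hMCL : Stmt_MCL.{u})
    (hCOF : Stmt_COF.{u}) : Stmt_COH.{u} := by
  classical
  intro p _ R _ _ _ m N X hX
  obtain ⟨h1, -, -, h4⟩ := hASG (ZMod p) R m X.h X.A hX.h_mem hX.glue
  have hK : ∀ σ, ∀ v ∈ σ, ∀ x : DR (ZMod p) R, x ∈ X.KM X.c σ ↔
      ∃ y ∈ LM (X.As σ) (X.t v), x = fn (ZMod p) R (mon (X.t v) (X.c v)) * y := by
    intro σ v hv x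
    exact (hMCL p R m N X hX σ v hv).2 X.c (Or.inl rfl) x
  refine ⟨?_, ?_, ?_, ?_⟩
  · intro σ hσ a ha x hx
    obtain ⟨v, hv⟩ := hσ
    obtain ⟨y, hy, rfl⟩ := (hK σ v hv x).1 hx
    refine (hK σ v hv _).2 ⟨fn (ZMod p) R a * y, ?_, ?_⟩
    · exact (LM (X.As σ) (X.t v)).mul_mem (Subring.subset_closure (Or.inl ⟨a, h1 σ ha, rfl⟩)) hy
    · rw [fn_smul', ← mul_assoc, ← mul_assoc, ← map_mul, ← map_mul, mul_comm]
  · intro σ τ hσ hστ x hx
    obtain ⟨v, hv⟩ := hσ
    obtain ⟨y, hy, rfl⟩ := (hK σ v hv x).1 hx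
    exact (hK τ v (hστ hv) _).2 ⟨y, LM_mono (As_mono X hστ) _ hy, rfl⟩
  · intro σ τ hσ hστ x hx
    have hσ' := hσ
    obtain ⟨v, hv⟩ := hσ
    obtain ⟨y, hy, rfl⟩ := (hK τ v (hστ hv) x).1 hx
    refine mul_span (Prg (ZMod p) X.h τ) (mon (X.t v) (X.c v))
      (LM (X.As σ) (X.t v) : Set (DR (ZMod p) R)) _ ?_ y ?_
    · intro z hz
      exact (hK σ v hv _).2 ⟨z, hz, rfl⟩
    · exact span_LM (Prg (ZMod p) X.h τ) (X.As σ) (X.As τ) (X.t v)
        (fun x hx => h4 σ τ hσ' hστ x hx) y hy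
  · intro v
    have hv : v ∈ ({v} : Finset (Fin m)) := Finset.mem_singleton_self v
    have hA : X.As {v} = X.A v := by
      unfold BMod.As
      simp
    obtain ⟨G, hG, hG'⟩ := hX.fin v
    obtain ⟨H, hH, hH'⟩ := hCOF p N R (X.As {v}) (Prg (ZMod p) X.h {v}) (X.t v)
      (hCHT p R m N X hX {v} v hv) (h1 {v}) ⟨G, by rw [hA]; exact hG, by rw [hA]; exact hG'⟩
    refine ⟨H.image (fun x => fn (ZMod p) R (mon (X.t v) (X.c v)) * x), ?_, ?_⟩
    · intro x hx
      rw [Finset.mem_coe, Finset.mem_image] at hx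
      obtain ⟨y, hy, rfl⟩ := hx
      exact (hK {v} v hv _).2 ⟨y, hH y hy, rfl⟩
    · intro x hx
      obtain ⟨y, hy, rfl⟩ := (hK {v} v hv x).1 hx
      refine mul_span (Prg (ZMod p) X.h {v}) (mon (X.t v) (X.c v))
        (H : Set (DR (ZMod p) R)) _ ?_ y (hH' y hy)
      intro z hz
      rw [Finset.mem_coe, Finset.mem_image]
      exact ⟨z, hz, rfl⟩

end

end Pool.Agent.DBX.DIA
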