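import Pool.Agent.DBX.DIA.Stmts

set_option autoImplicit false

/-! # DBX, area DIA, module CRT: the Cartier property of the lattices -/

namespace Pool.Agent.DBX.DIA

open KaehlerDifferential Pool.Agent.DBE Pool.Agent.DBX Pool.Agent.DBX.DIB Pool.Agent.DBX.DIA2

universe u

noncomputable section

namespace CRT_

variable {p : ℕ} {R : Type u} [CommRing R] [Algebra (ZMod p) R] {m N : ℕ}

theorem main [Fact p.Prime] [CharP R p] (hPHV : Pool.Agent.DBX.DIB.Stmt_PHV.{u})
    (hCHT : Stmt_CHT.{u}) (hMCL : Stmt_MCL.{u}) (hCAR : Pool.Agent.DBX.DIA2.Stmt_CAR.{u})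
    (X : BMod p R m N) (F : Frob p (Fin m) (ZMod p) R) (hX : X.Good) (hF : X.FGood F)
    (e : Fin m → Fin N → ℕ) (he : e = X.c ∨ e = X.c') (hep : ∀ v i, e v i ≤ p)
    (he0 : ∀ v i, X.c v i = 0 ↔ e v i = 0) : X.lat.Cartier F (X.T X.c) (X.T e) := by
  obtain ⟨q1, q2, _, _⟩ := hPHV p (Fin m) (ZMod p) R F
  have hcar := fun (s : Finset (Fin m)) (v : Fin m) (hv : v ∈ s) =>
    hCAR p N R (X.As s) (X.t v) (hCHT p R m N X hX s v hv) (F.θ v) (F.Lam v)
      (fun a w => F.θ_smul v a w) (fun i => hF.θ_t v i) (q2 v) (q1 v) (X.c v) (e v)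
      (hX.c_le v) (hep v) (he0 v)
  refine ⟨?_, ?_, ?_⟩
  · intro s hs
    have hT : ∀ e : Fin m → Fin N → ℕ, X.T e s = mon (X.t (s.min' hs)) (e (s.min' hs)) := by
      intro e
      unfold BMod.T
      rw [dif_pos hs]
    have hu := s.min'_mem hs
    generalize s.min' hs = u at hT hu
    refine ⟨mon (X.t u) (fun i => p * X.c u i - e u i), ?_, ?_⟩
    · change _ ∈ X.As s
      refine prod_mem fun i _ => pow_mem ?_ _
      have hle : X.A u ≤ X.As s := by
        unfold BMod.As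
        exact le_biSup (f := fun v => X.A v) hu
      exact hle (hX.t_mem u i)
    · rw [hT, hT]
      unfold mon
      rw [← Finset.prod_pow, ← Finset.prod_mul_distrib]
      refine Finset.prod_congr rfl fun i _ => ?_
      rw [← pow_mul, ← pow_add]
      congr 1
      change X.c u i * p = (p * X.c u i - e u i) + e u i
      have h1 := hX.c_le u i
      have h2 := hep u i
      have h3 := he0 u i
      rcases Nat.eq_zero_or_pos (X.c u i) with h | h
      · rw [h, h3.1 h]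
        simp
      · have h4 : X.c u i = 1 := le_antisymm h1 h
        rw [h4, one_mul, mul_one, Nat.sub_add_cancel h2]
  · intro s v hv x hx y hy hxy
    have hM := (hMCL p R m N X hX s v hv).2
    obtain ⟨x0, hx0, rfl⟩ := (hM X.c (Or.inl rfl) x).1 hx
    obtain ⟨y0, hy0, rfl⟩ := (hM e he y).1 hy
    exact (hcar s v hv).1 x0 hx0 y0 hy0 hxy
  · intro s v hv y hy hdy
    have hM := (hMCL p R m N X hX s v hv).2
    obtain ⟨y0, hy0, rfl⟩ := (hM e he y).1 hy
    obtain ⟨x, hx, y', hy', h⟩ := (hcar s v hv).2 y0 hy0 hdy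
    exact ⟨_, (hM X.c (Or.inl rfl) _).2 ⟨x, hx, rfl⟩, _, (hM e he _).2 ⟨y', hy', rfl⟩, h⟩

end CRT_

theorem crt_proof (hPHV : Pool.Agent.DBX.DIB.Stmt_PHV.{u}) (hCHT : Stmt_CHT.{u})
    (hMCL : Stmt_MCL.{u}) (hCAR : Pool.Agent.DBX.DIA2.Stmt_CAR.{u}) : Stmt_CRT.{u} := by
  intro p hp R _ _ _ m N X F hX hF
  constructor
  · exact CRT_.main hPHV hCHT hMCL hCAR X F hX hF X.c (Or.inl rfl)
      (fun v i => (hX.c_le v i).trans hp.out.one_lt.le) (fun v i => Iff.rfl)
  · exact CRT_.main hPHV hCHT hMCL hCAR X F hX hF X.c' (Or.inr rfl) hX.c'_le hX.c_supp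

end

end Pool.Agent.DBX.DIA
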