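import Pool.Agent.DBX.DIA.Stmts

set_option autoImplicit false

/-! # DIA / ETB: base change of étale coordinates to `F_p` -/

namespace Pool.Agent.DBX.DIA

open KaehlerDifferential Pool.Agent.DBE Pool.Agent.DBX Pool.Agent.DBX.DIB Pool.Agent.DBX.DIA2

universe u

namespace ETB_

open TensorProduct

/-- étaleness of a reduction: `B = A/(ker g) A` -/
theorem etale_red {P2 P1 A B : Type*} [CommRing P2] [CommRing P1] [CommRing A] [CommRing B]
    (g : P2 →+* P1) (hg : Function.Surjective g) (f : P2 →+* A) (f' : P1 →+* B) (ρ : A →+* B)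
    (hρ : Function.Surjective ρ) (hc : f'.comp g = ρ.comp f) (c : P2) (hgc : g c = 0)
    (hker : ∀ y : A, ρ y = 0 → ∃ z : A, y = f c * z) (hf : f.Etale) : f'.Etale := by
  let : Algebra P2 P1 := g.toAlgebra
  let : Algebra P2 A := f.toAlgebra
  let : Algebra P1 B := f'.toAlgebra
  let : Algebra P2 B := (f'.comp g).toAlgebra
  have : IsScalarTower P2 P1 B := IsScalarTower.of_algebraMap_eq' rfl
  have : Algebra.Etale P2 A := hf
  let ρ' : A →ₐ[P2] B := { ρ with commutes' := fun r => (RingHom.congr_fun hc r).symm }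
  let φ : P1 ⊗[P2] A →ₐ[P1] B :=
    Algebra.TensorProduct.lift (Algebra.ofId P1 B) ρ' (fun _ _ => Commute.all _ _)
  have hφ : ∀ y : A, φ (1 ⊗ₜ y) = ρ y := by
    intro y
    simp only [φ, Algebra.TensorProduct.lift_tmul, map_one, one_mul]
    rfl
  have hinc : Function.Surjective (fun y : A => (1 : P1) ⊗ₜ[P2] y) := by
    intro x
    induction x using TensorProduct.induction_on with
    | zero => exact ⟨0, TensorProduct.tmul_zero _ _⟩
    | tmul a b =>
      obtain ⟨q, rfl⟩ := hg a
      refine ⟨q • b, ?_⟩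
      show (1 : P1) ⊗ₜ[P2] (q • b) = g q ⊗ₜ[P2] b
      rw [← TensorProduct.smul_tmul, Algebra.smul_def, mul_one]
      rfl
    | add x y hx hy =>
      obtain ⟨a, rfl⟩ := hx
      obtain ⟨b, rfl⟩ := hy
      exact ⟨a + b, TensorProduct.tmul_add _ _ _⟩
  have hbij : Function.Bijective φ := by
    constructor
    · rw [injective_iff_map_eq_zero]
      intro x hx
      obtain ⟨y, rfl⟩ := hinc x
      simp only at hx
      rw [hφ] at hx
      obtain ⟨z, rfl⟩ := hker y hx
      show (1 : P1) ⊗ₜ[P2] (f c * z) = 0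
      have : f c * z = c • z := (Algebra.smul_def c z).symm
      rw [this, ← TensorProduct.smul_tmul, Algebra.smul_def, mul_one]
      show (g c) ⊗ₜ[P2] z = 0
      rw [hgc, TensorProduct.zero_tmul]
    · intro b
      obtain ⟨a, rfl⟩ := hρ b
      exact ⟨1 ⊗ₜ a, hφ a⟩
  have : Algebra.Etale P1 B := Algebra.Etale.of_equiv (AlgEquiv.ofBijective φ hbij)
  exact this

end ETB_

open ETB_ in
theorem etb_proof : Stmt_ETB.{u} := by
  intro p _ Q R _ _ _ _ π hπ N A t ht hsat het B ht' hB
  have hc : (p : ZMod (p ^ 2)).cast = (0 : ZMod p) := by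
    rw [ZMod.cast_natCast (dvd_pow_self p two_ne_zero), ZMod.natCast_self]
  let cst : ZMod (p ^ 2) →+* ZMod p := ZMod.castHom (dvd_pow_self p two_ne_zero) (ZMod p)
  have hcst : Function.Surjective cst := ZMod.castHom_surjective _
  let ρ : A →+* B :=
    { toFun := fun y => ⟨π y, (hB _).2 ⟨y, y.2, rfl⟩⟩
      map_one' := Subtype.ext (map_one π)
      map_zero' := Subtype.ext (map_zero π)
      map_mul' := fun a b => Subtype.ext (map_mul π _ _)
      map_add' := fun a b => Subtype.ext (map_add π _ _) }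
  have hρ : Function.Surjective ρ := by
    rintro ⟨b, hb⟩
    obtain ⟨y, hy, rfl⟩ := (hB b).1 hb
    exact ⟨⟨y, hy⟩, rfl⟩
  refine ETB_.etale_red (MvPolynomial.map (σ := Fin N) cst) (MvPolynomial.map_surjective _ hcst) _ _ ρ hρ ?_
    (MvPolynomial.C (p : ZMod (p ^ 2))) ?_ ?_ het
  · refine MvPolynomial.ringHom_ext' ?_ ?_
    · exact RingHom.ext_zmod _ _
    · intro i
      refine Subtype.ext ?_
      simp [ρ]
  · rw [MvPolynomial.map_C]
    show MvPolynomial.C (cst (p : ZMod (p ^ 2))) = 0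
    rw [map_natCast, ZMod.natCast_self, MvPolynomial.C_0]
  · intro y hy
    have h1 : π (y : Q) = 0 := congrArg Subtype.val hy
    obtain ⟨x, hx⟩ := (hπ.ker _).1 h1
    obtain ⟨z, hz, hz'⟩ := hsat x (by rw [← hx]; exact y.2)
    refine ⟨⟨z, hz⟩, Subtype.ext ?_⟩
    have h2 : ((MvPolynomial.aeval (R := ZMod (p ^ 2)) (fun i => (⟨t i, ht i⟩ : A))).toRingHom
        (MvPolynomial.C (p : ZMod (p ^ 2)))) = (p : A) := by
      rw [map_natCast, map_natCast]
    rw [h2, hx, ← hz']
    simp

end Pool.Agent.DBX.DIA
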