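import Pool.Agent.DBX.DIA.Stmts

/-!
# DBX, area DIA, module FIN: `Stmt_DI`
-/

set_option autoImplicit false

namespace Pool.Agent.DBX.DIA

open KaehlerDifferential Pool.Agent.DBE Pool.Agent.DBX Pool.Agent.DBX.DIB Pool.Agent.DBX.DIA2

universe u

noncomputable section

namespace FIN_

theorem cd_pi {V : Type} [LinearOrder V] {Q R : Type u} [CommRing Q] [CommRing R] (π : Q →+* R)
    (x : Finset V → Q) (s : Finset V) : cd (fun t => π (x t)) s = π (cd x s) := by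
  unfold cd
  rw [map_sum]
  refine Finset.sum_congr rfl fun v _ => ?_
  rw [map_zsmul]

theorem mon_ne {N : ℕ} {R : Type u} [CommRing R] (t : Fin N → Rˣ) (e : Fin N → ℕ) :
    mon t e * ∏ i, (((t i)⁻¹ : Rˣ) : R) ^ e i = 1 := by
  unfold mon
  rw [← Finset.prod_mul_distrib]
  refine Finset.prod_eq_one fun i _ => ?_
  rw [← mul_pow, Units.mul_inv, one_pow]

section

variable {p : ℕ} {Q : Type u} [CommRing Q] [Algebra (ZMod (p ^ 2)) Q] {m N : ℕ}

theorem As_mono (Y : DMod p Q m N) {s t : Finset (Fin m)} (h : s ⊆ t) : Y.As s ≤ Y.As t :=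
  biSup_mono fun _ hv => h hv

/-- a multiple of the monomial of one chart is in `O` -/
theorem mem_O (Y : DMod p Q m N) (e : Fin m → Fin N → ℕ)
    (he : ∀ v w, (∏ i, (Y.t v i : Q) ^ e v i) * (∏ i, (((Y.t w i)⁻¹ : Qˣ) : Q) ^ e w i) ∈
      Y.As {v, w}) (s : Finset (Fin m)) (v : Fin m) (hv : v ∈ s) (a : Q) (ha : a ∈ Y.As s) :
    mon (Y.t v) (e v) * a ∈ Y.O e s := by
  intro w hw
  refine ⟨((∏ i, (Y.t v i : Q) ^ e v i) * (∏ i, (((Y.t w i)⁻¹ : Qˣ) : Q) ^ e w i)) * a,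
    mul_mem (As_mono Y ?_ (he v w)) ha, 0, ?_⟩
  · intro x hx
    rcases Finset.mem_insert.1 hx with h | h
    · rw [h]; exact hv
    · rw [Finset.mem_singleton.1 h]; exact hw
  · have h1 := mon_ne (Y.t w) (e w)
    unfold mon at h1 ⊢
    linear_combination (-(∏ i, (Y.t v i : Q) ^ e v i) * a) * h1

end

theorem mon_map {N : ℕ} {Q R : Type u} [CommRing Q] [CommRing R] (π : Q →+* R)
    (t : Fin N → Qˣ) (e : Fin N → ℕ) :
    mon (fun i => Units.map (π : Q →* R) (t i)) e = π (mon t e) := by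
  unfold mon
  rw [map_prod]
  refine Finset.prod_congr rfl fun i _ => ?_
  rw [map_pow]
  rfl

end FIN_

open FIN_ in
theorem fin_proof (hRAS : Stmt_RAS.{u}) (hRED : Stmt_RED.{u}) (hFRB : Stmt_FRB.{u})
    (hBIN : Stmt_BIN.{u}) : Pool.Agent.DBX.Stmt_DI.{u} := by
  intro p hp Q _ _ m N Y hY hN z hz hdz
  have hp' := hp.out
  have hpp : (p : Q) ^ 2 = 0 := by
    have h := congrArg (algebraMap (ZMod (p ^ 2)) Q) (ZMod.natCast_self (p ^ 2))
    rw [map_natCast, map_zero] at h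
    exact_mod_cast h
  rcases subsingleton_or_nontrivial Q with hQ | hQ
  · refine ⟨fun _ => 0, fun _ => 0, ⟨rfl, ?_⟩, fun σ => ⟨0, Subsingleton.elim _ _⟩, ⟨rfl, ?_⟩,
      fun σ => ⟨0, Subsingleton.elim _ _⟩⟩
    · intro σ _ v _
      exact ⟨0, zero_mem _, 0, Subsingleton.elim _ _⟩
    · intro σ _ v _
      exact ⟨0, zero_mem _, 0, Subsingleton.elim _ _⟩
  -- the reduction
  let I : Ideal Q := Ideal.span {(p : Q)}
  let π : Q →+* (Q ⧸ I) := Ideal.Quotient.mk I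
  have hker : ∀ x, π x = 0 ↔ ∃ y, x = (p : Q) * y := by
    intro x
    rw [Ideal.Quotient.eq_zero_iff_mem, Ideal.mem_span_singleton']
    constructor
    · rintro ⟨a, ha⟩; exact ⟨a, by rw [← ha, mul_comm]⟩
    · rintro ⟨a, ha⟩; exact ⟨a, by rw [ha, mul_comm]⟩
  have hred : Red p π := ⟨Ideal.Quotient.mk_surjective, hker⟩
  have hnt : Nontrivial (Q ⧸ I) := by
    refine Ideal.Quotient.nontrivial_iff.2 ?_
    intro h
    have h1 : (1 : Q) ∈ I := by rw [h]; exact Submodule.mem_top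
    rw [Ideal.mem_span_singleton'] at h1
    obtain ⟨a, ha⟩ := h1
    have h2 : (p : Q) = 0 := by
      calc (p : Q) = (a * p) * p := by rw [ha, one_mul]
        _ = a * (p : Q) ^ 2 := by ring
        _ = 0 := by rw [hpp, mul_zero]
    rw [h2, mul_zero] at ha
    exact zero_ne_one ha
  have hch : CharP (Q ⧸ I) p := by
    refine (CharP.charP_iff_prime_eq_zero hp').2 ?_
    rw [← map_natCast π, hker]
    exact ⟨1, by rw [mul_one]⟩
  let halg : Algebra (ZMod p) (Q ⧸ I) := ZMod.algebra _ p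
  obtain ⟨F, hF⟩ := hFRB p Q (Q ⧸ I) m N Y π hY hred
  have hX := hRED p Q (Q ⧸ I) m N Y π hY hred
  obtain ⟨hA1, hA2⟩ := hRAS p Q (Q ⧸ I) m N Y π
  have hT : ∀ (e : Fin m → Fin N → ℕ) (s : Finset (Fin m)) (hs : s.Nonempty),
      (red Y π).T e s = π (mon (Y.t (s.min' hs)) (e (s.min' hs))) := by
    intro e s hs
    unfold BMod.T
    rw [dif_pos hs]
    exact mon_map π _ _
  obtain ⟨z', y, hz'0, hz', hdz', hy0, hy, hzy⟩ := hBIN p (Q ⧸ I) m N (red Y π) F hX hF hN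
    (fun s => π (z s)) (by rw [hz.1, map_zero]) (by
      intro s hs
      obtain ⟨a, ha, q, hq⟩ := hz.2 s hs (s.min' hs) (Finset.min'_mem s hs)
      refine ⟨π a, (hA2 s _).2 ⟨a, ha, rfl⟩, ?_⟩
      rw [show (red Y π).c = Y.c from rfl, hT Y.c s hs, hq, map_add, (hker _).2 ⟨q, rfl⟩, add_zero,
        map_mul, mul_comm]
      rfl) (by
      funext s
      rw [cd_pi, (hker _).2 (hdz s)]
      rfl)
  -- lifting
  have lift : ∀ (e : Fin m → Fin N → ℕ) (x : Finset (Fin m) → (Q ⧸ I)), x ∅ = 0 →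
      (∀ v w, (∏ i, (Y.t v i : Q) ^ e v i) * (∏ i, (((Y.t w i)⁻¹ : Qˣ) : Q) ^ e w i) ∈
        Y.As {v, w}) →
      (∀ s, s.Nonempty → ∃ a ∈ (red Y π).As s, x s = (red Y π).T e s * a) →
      ∃ x' : Finset (Fin m) → Q, InC (Y.O e) x' ∧ ∀ s, π (x' s) = x s := by
    intro e x hx0 he hx
    have h1 : ∀ s : Finset (Fin m), ∃ b : Q, (s = ∅ → b = 0) ∧
        (s.Nonempty → b ∈ Y.O e s) ∧ π b = x s := by
      intro s
      rcases s.eq_empty_or_nonempty with hs | hs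
      · subst hs
        refine ⟨0, fun _ => rfl, fun h => absurd h (by simp), ?_⟩
        rw [map_zero, hx0]
      · obtain ⟨a, ha, hxa⟩ := hx s hs
        obtain ⟨b, hb, rfl⟩ := (hA2 s a).1 ha
        refine ⟨mon (Y.t (s.min' hs)) (e (s.min' hs)) * b, fun h => ?_, fun _ => ?_, ?_⟩
        · rw [h] at hs; exact absurd hs (by simp)
        · exact mem_O Y e he s _ (Finset.min'_mem s hs) b hb
        · rw [hxa, hT e s hs, map_mul]
    choose x' hx1 hx2 hx3 using h1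
    exact ⟨x', ⟨hx1 ∅ rfl, fun s hs => hx2 s hs⟩, hx3⟩
  obtain ⟨Z, hZ, hZπ⟩ := lift Y.c' z' hz'0 hY.c'_glue hz'
  obtain ⟨W, hW, hWπ⟩ := lift Y.c y hy0 hY.c_glue hy
  refine ⟨Z, W, hZ, fun σ => (hker _).1 ?_, hW, fun σ => ?_⟩
  · rw [← cd_pi, show (fun t => π (Z t)) = z' from funext hZπ, hdz']
    rfl
  · have h2 : π (z σ - (Z σ + cd W σ)) = 0 := by
      rw [map_sub, map_add, ← cd_pi, hZπ, show (fun t => π (W t)) = y from funext hWπ]
      have h3 := congrFun hzy σ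
      change π (z σ) = z' σ + cd y σ at h3
      rw [h3, sub_self]
    obtain ⟨q, hq⟩ := (hker _).1 h2
    exact ⟨q, by rw [← hq]; ring⟩

end

end Pool.Agent.DBX.DIA
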