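import Pool.Agent.DBX.DIA.Stmts

/-!
# DBX, area DIA, module FNT: finiteness of the cohomology
-/

set_option autoImplicit false

namespace Pool.Agent.DBX.DIA

open KaehlerDifferential Pool.Agent.DBE Pool.Agent.DBX Pool.Agent.DBX.DIB Pool.Agent.DBX.DIA2

universe u

theorem fnt_proof (hSER1 : Pool.Agent.DBX.Stmt_SER1.{u, 0}) (hCOH : Stmt_COH.{u}) :
    Stmt_FNT.{u} := by
  intro p _ R _ _ _ m N X hX
  obtain ⟨G, _, hx⟩ := hSER1 (ZMod p) R (DR (ZMod p) R) m X.h (X.KM X.c) (hCOH p R m N X hX)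
  refine ⟨(Submodule.span (ZMod p) (G : Set (Finset (Fin m) → DR (ZMod p) R)) : Set _), ?_, ?_⟩
  · have h1 : Module.Finite (ZMod p)
        (Submodule.span (ZMod p) (G : Set (Finset (Fin m) → DR (ZMod p) R))) :=
      Module.Finite.span_finset (ZMod p) G
    have h2 : Finite (Submodule.span (ZMod p) (G : Set (Finset (Fin m) → DR (ZMod p) R))) :=
      Module.finite_of_finite (ZMod p)
    exact Set.toFinite _
  · intro x hxC hcd
    obtain ⟨y, hy, hy'⟩ := hx x hxC hcd
    exact ⟨x - cd y, hy', y, hy, by rw [sub_add_cancel]⟩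

end Pool.Agent.DBX.DIA
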