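import Pool.Agent.DBX.DIA.Stmts

/-!
# DBX, area DIA, module FRB: existence of good Frobenius data
-/

set_option autoImplicit false

namespace Pool.Agent.DBX.DIA

open KaehlerDifferential Pool.Agent.DBE Pool.Agent.DBX Pool.Agent.DBX.DIB Pool.Agent.DBX.DIA2

universe u

noncomputable section

namespace FRB_

theorem scal1 {p : ℕ} [Fact p.Prime] {R : Type u} [CommRing R] (u : Rˣ) : ((u⁻¹ : Rˣ) : R) ^ p * (u : R) ^ (p - 1) = ((u⁻¹ : Rˣ) : R) := by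
  have hp : p = (p - 1) + 1 := (Nat.sub_add_cancel (Fact.out : p.Prime).one_le).symm
  obtain ⟨n, hn⟩ : ∃ n, n = p - 1 := ⟨_, rfl⟩
  rw [← hn] at hp
  rw [← hn, hp, pow_succ, mul_right_comm, ← mul_pow, Units.inv_mul, one_pow, one_mul]

theorem scal2 {p : ℕ} {R : Type u} [CommRing R] (u : Rˣ) : ((u⁻¹ : Rˣ) : R) ^ p * (u : R) ^ p = 1 := by
  rw [← mul_pow, Units.inv_mul, one_pow]

theorem lemA {p : ℕ} [Fact p.Prime] {R : Type u} [CommRing R] [Algebra (ZMod p) R] (u : Rˣ) : ((u⁻¹ : Rˣ) : R) ^ p • (u : R) ^ (p - 1) • D (ZMod p) R (u : R) =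
    lg (p := p) u := by
  unfold lg
  rw [smul_smul, scal1]

theorem lemB {p : ℕ} {R : Type u} [CommRing R] [Algebra (ZMod p) R] [CharP R p] (a b : R) : D (ZMod p) R (a ^ p * b) = a ^ p • D (ZMod p) R b := by
  rw [Derivation.leibniz, Derivation.leibniz_pow, ← Nat.cast_smul_eq_nsmul R, CharP.cast_eq_zero,
    zero_smul, smul_zero, add_zero]

end FRB_

open FRB_ in
theorem frb_proof (hLIS : Stmt_LIS.{u}) (hLFR : Stmt_LFR.{u}) (hTHH : Stmt_THH.{u})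
    (hRAS : Stmt_RAS.{u}) : Stmt_FRB.{u} := by
  intro p _ Q R _ _ _ _ _ m N Y π hY hπ
  obtain ⟨φ, hφ⟩ := hLIS p Q m N Y hY
  have hp2 : (p : Q) ^ 2 = 0 := by
    have h1 : (((p ^ 2 : ℕ) : ZMod (p ^ 2))) = 0 := ZMod.natCast_self _
    have h2 := congrArg (algebraMap (ZMod (p ^ 2)) Q) h1
    rw [map_natCast, map_zero, Nat.cast_pow] at h2
    exact h2
  obtain ⟨F, hF1, hF2⟩ := hTHH p (Fin m) Q R π hπ hp2 hY.flat φ hφ.frob
  have hθ : ∀ v (a : Q) (u : Qˣ), φ v (u : Q) = (u : Q) ^ p * (1 + (p : Q) * a) →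
      F.θ v (lg (p := p) (Units.map (π : Q →* R) u)) =
        lg (p := p) (Units.map (π : Q →* R) u) + D (ZMod p) R (π a) := by
    intro v a u h
    obtain ⟨w, hw⟩ : ∃ w, w = Units.map (π : Q →* R) u := ⟨_, rfl⟩
    have hw' : (w : R) = π (u : Q) := by rw [hw]; rfl
    rw [← hw]
    have h1 := hF1 v (u : Q) ((u : Q) ^ p * a) (by rw [h]; ring)
    rw [map_mul, map_pow, ← hw', lemB] at h1
    have h2 : F.θ v (lg (p := p) w) = ((w⁻¹ : Rˣ) : R) ^ p • F.θ v (D (ZMod p) R (w : R)) := by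
      unfold lg
      rw [F.θ_smul]
    rw [h2, h1, smul_add, lemA, smul_smul, scal2, one_smul]
  refine ⟨F, ⟨?_, ?_, ?_⟩⟩
  · intro v i
    have h := hθ v 0 (Y.t v i) (by rw [hφ.t, mul_zero, add_zero, mul_one])
    rw [map_zero, map_zero, add_zero] at h
    exact h
  · intro σ v hv w hw i
    obtain ⟨a, ha, ha'⟩ := hLFR p Q R m N Y π hY hπ φ hφ σ v hv w hw i
    exact ⟨π a, ((hRAS p Q R m N Y π).2 σ (π a)).2 ⟨a, ha, rfl⟩, hθ w a (Y.t v i) ha'⟩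
  · intro σ v hv w hw z hz i
    obtain ⟨a, ha, ha'⟩ := hLFR p Q R m N Y π hY hπ φ hφ σ v hv w hw i
    obtain ⟨b, hb, hb'⟩ := hLFR p Q R m N Y π hY hπ φ hφ σ v hv z hz i
    have h1 := hF2 w z (Y.t v i : Q) ((Y.t v i : Q) ^ p * (b - a)) (by rw [ha', hb']; ring)
    have h2 : F.h w z (lg (p := p) (Units.map (π : Q →* R) (Y.t v i))) = π (b - a) := by
      obtain ⟨x, hx⟩ : ∃ x, x = Units.map (π : Q →* R) (Y.t v i) := ⟨_, rfl⟩
      have hx' : (x : R) = π (Y.t v i : Q) := by rw [hx]; rfl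
      rw [← hx]
      rw [map_mul, map_pow, ← hx'] at h1
      unfold lg
      rw [F.h_smul, h1, ← mul_assoc, scal2, one_mul]
    show F.h w z (lg (p := p) (Units.map (π : Q →* R) (Y.t v i))) ∈ _
    rw [h2]
    exact ((hRAS p Q R m N Y π).2 σ (π (b - a))).2 ⟨b - a, Subalgebra.sub_mem _ hb ha, rfl⟩

end

end Pool.Agent.DBX.DIA
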