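import Pool.Agent.DBX.DIA.Stmts

/-!
# DBX, area DIA: the lattices are good
-/

set_option autoImplicit false

namespace Pool.Agent.DBX.DIA

open KaehlerDifferential Pool.Agent.DBE Pool.Agent.DBX Pool.Agent.DBX.DIB Pool.Agent.DBX.DIA2

universe u

namespace GOO_

noncomputable section

variable {p : ℕ} {R : Type u} [CommRing R] [Algebra (ZMod p) R] {m N : ℕ}

theorem As_mono (X : BMod p R m N) {s t : Finset (Fin m)} (h : s ⊆ t) : X.As s ≤ X.As t :=
  biSup_mono fun _ hv => h hv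

theorem smul_As (X : BMod p R m N) {s : Finset (Fin m)} (a : X.As s) (w : Ω[R⁄ZMod p]) :
    a • w = (a : R) • w := rfl

theorem mem_W (X : BMod p R m N) (s : Finset (Fin m)) (w : Ω[R⁄ZMod p]) :
    w ∈ X.lat.W s ↔ w ∈ Submodule.span (X.As s)
      {w : Ω[R⁄ZMod p] | ∃ v ∈ s, ∃ i, w = lg (X.t v i)} := Iff.rfl

theorem mem_A (X : BMod p R m N) (s : Finset (Fin m)) (a : R) : a ∈ X.lat.A s ↔ a ∈ X.As s :=
  Iff.rfl

theorem smul_W (X : BMod p R m N) {s : Finset (Fin m)} {a : R} (ha : a ∈ X.As s)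
    {w : Ω[R⁄ZMod p]} (hw : w ∈ X.lat.W s) : a • w ∈ X.lat.W s := by
  rw [mem_W] at hw ⊢
  exact Submodule.smul_mem _ (⟨a, ha⟩ : X.As s) hw

theorem lg_W (X : BMod p R m N) {s : Finset (Fin m)} {v : Fin m} (hv : v ∈ s) (i : Fin N) :
    lg (X.t v i) ∈ X.lat.W s := by
  rw [mem_W]
  exact Submodule.subset_span ⟨v, hv, i, rfl⟩

/-- induction on the logarithmic one-forms -/
theorem W_ind (X : BMod p R m N) {s : Finset (Fin m)} {P : Ω[R⁄ZMod p] → Prop}
    (h0 : P 0) (h1 : ∀ v ∈ s, ∀ i, P (lg (X.t v i))) (h2 : ∀ x y, P x → P y → P (x + y))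
    (h3 : ∀ a ∈ X.As s, ∀ x ∈ X.lat.W s, P x → P (a • x)) {w : Ω[R⁄ZMod p]}
    (hw : w ∈ X.lat.W s) : P w := by
  rw [mem_W] at hw
  induction hw using Submodule.span_induction with
  | mem x hx =>
    obtain ⟨v, hv, i, rfl⟩ := hx
    exact h1 v hv i
  | zero => exact h0
  | add x y _ _ hx hy => exact h2 x y hx hy
  | smul a x hx h => exact h3 a a.2 x hx h

theorem W_mono (X : BMod p R m N) {s t : Finset (Fin m)} (h : s ⊆ t) : X.lat.W s ≤ X.lat.W t := by
  intro w hw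
  refine W_ind X (P := fun w => w ∈ X.lat.W t) (zero_mem _) ?_ ?_ ?_ hw
  · intro v hv i
    exact lg_W X (h hv) i
  · intro x y hx hy
    exact add_mem hx hy
  · intro a ha x _ hx
    exact smul_W X (As_mono X h ha) hx

theorem D_mem (hC : Stmt_CHT.{u}) (hD : DIA2.Stmt_DIF.{u}) [Fact p.Prime] (X : BMod p R m N)
    (hX : X.Good) {s : Finset (Fin m)} (hs : s.Nonempty) {a : R} (ha : a ∈ X.As s) :
    D (ZMod p) R a ∈ X.lat.W s := by
  obtain ⟨v, hv⟩ := hs
  obtain ⟨θ, hθ⟩ := hD p N R (X.As s) (X.t v) (hC p R m N X hX s v hv)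
  rw [hθ.D_eq]
  exact sum_mem fun i _ => smul_W X (hθ.mem i a ha) (lg_W X hv i)

/-- `dlog` is closed -/
theorem dR_lg (t : Rˣ) : dR (ZMod p) R (one (ZMod p) R (lg (p := p) t)) = 0 := by
  have e1 : one (ZMod p) R (lg (p := p) t) =
      fn (ZMod p) R ((t⁻¹ : Rˣ) : R) * DBE.dd (ZMod p) R (t : R) := by
    rw [one, lg, map_smul, Algebra.smul_def]
    rfl
  have h1 := dd_mul (B := ZMod p) (t : R) ((t⁻¹ : Rˣ) : R)
  have h0 : DBE.dd (ZMod p) R 1 = 0 := by
    have := dd_algebraMap (B := ZMod p) (R := R) 1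
    rwa [map_one] at this
  rw [Units.mul_inv, h0] at h1
  -- `fn t * dd t⁻¹ = - fn t⁻¹ * dd t`
  have h2 : fn (ZMod p) R (t : R) * DBE.dd (ZMod p) R ((t⁻¹ : Rˣ) : R) =
      -(fn (ZMod p) R ((t⁻¹ : Rˣ) : R) * DBE.dd (ZMod p) R (t : R)) :=
    eq_neg_of_add_eq_zero_left h1.symm
  have h3 : fn (ZMod p) R ((t⁻¹ : Rˣ) : R) * fn (ZMod p) R (t : R) = 1 := by
    rw [← map_mul, Units.inv_mul, map_one]
  have h4 : DBE.dd (ZMod p) R ((t⁻¹ : Rˣ) : R) =
      -(fn (ZMod p) R ((t⁻¹ : Rˣ) : R) * (fn (ZMod p) R ((t⁻¹ : Rˣ) : R) *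
        DBE.dd (ZMod p) R (t : R))) := by
    rw [← mul_neg, ← h2, ← mul_assoc, h3, one_mul]
  rw [e1, dR_fn_mul, dR_dd, mul_zero, add_zero, h4, neg_mul, mul_assoc, mul_assoc, dd_sq, mul_zero,
    mul_zero, neg_zero]

theorem one_M (X : BMod p R m N) {s : Finset (Fin m)} {w : Ω[R⁄ZMod p]} (hw : w ∈ X.lat.W s) :
    one (ZMod p) R w ∈ X.lat.M s :=
  Subring.subset_closure (Or.inr ⟨w, hw, rfl⟩)

theorem fn_M (X : BMod p R m N) {s : Finset (Fin m)} {a : R} (ha : a ∈ X.As s) :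
    fn (ZMod p) R a ∈ X.lat.M s :=
  Subring.subset_closure (Or.inl ⟨a, ha, rfl⟩)

theorem dW (hC : Stmt_CHT.{u}) (hD : DIA2.Stmt_DIF.{u}) [Fact p.Prime] (X : BMod p R m N)
    (hX : X.Good) {s : Finset (Fin m)} (hs : s.Nonempty) {w : Ω[R⁄ZMod p]}
    (hw : w ∈ X.lat.W s) : dR (ZMod p) R (one (ZMod p) R w) ∈ X.lat.M s := by
  refine W_ind X (P := fun w => dR (ZMod p) R (one (ZMod p) R w) ∈ X.lat.M s) ?_ ?_ ?_ ?_ hw
  · rw [one, map_zero, map_zero]
    exact zero_mem _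
  · intro v _ i
    rw [dR_lg]
    exact zero_mem _
  · intro x y hx hy
    rw [one, map_add, map_add]
    exact add_mem hx hy
  · intro a ha x hxW hx
    have e : one (ZMod p) R (a • x) = fn (ZMod p) R a * one (ZMod p) R x := by
      rw [one, map_smul, Algebra.smul_def]
    rw [e, dR_fn_mul]
    exact add_mem (mul_mem (one_M X (D_mem hC hD X hX hs ha)) (one_M X hxW))
      (mul_mem (fn_M X ha) hx)

theorem D_pow (t : Rˣ) (n : ℕ) :
    D (ZMod p) R ((t : R) ^ n) = (t : R) ^ n • ((n : R) • lg (p := p) t) := by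
  rw [Derivation.leibniz_pow, lg, smul_smul, smul_smul, ← Nat.cast_smul_eq_nsmul R, smul_smul]
  congr 1
  cases n with
  | zero => simp
  | succ n =>
    have h1 : (t : R) * ((t⁻¹ : Rˣ) : R) = 1 := Units.mul_inv t
    rw [Nat.add_sub_cancel, pow_succ]
    linear_combination (-((n + 1 : ℕ) : R) * (t : R) ^ n) * h1

theorem D_prod (t : Fin N → Rˣ) (e : Fin N → ℕ) (S : Finset (Fin N)) :
    D (ZMod p) R (∏ i ∈ S, (t i : R) ^ e i) =
      (∏ i ∈ S, (t i : R) ^ e i) • ∑ i ∈ S, (e i : R) • lg (p := p) (t i) := by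
  classical
  induction S using Finset.induction_on with
  | empty => simp
  | insert j S hj ih =>
    rw [Finset.prod_insert hj, Finset.sum_insert hj, Derivation.leibniz, ih, D_pow, smul_add,
      smul_smul, smul_smul, smul_smul, add_comm]
    congr 1
    rw [mul_comm (∏ i ∈ S, (t i : R) ^ e i)]
    rw [smul_smul]

theorem T_eq (X : BMod p R m N) (e : Fin m → Fin N → ℕ) {s : Finset (Fin m)} (hs : s.Nonempty) :
    X.T e s = mon (X.t (s.min' hs)) (e (s.min' hs)) := by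
  unfold BMod.T
  rw [dif_pos hs]

theorem prod_inv (t : Fin N → Rˣ) (e : Fin N → ℕ) :
    (∏ i, (((t i)⁻¹ : Rˣ) : R) ^ e i) * ∏ i, (t i : R) ^ e i = 1 := by
  rw [← Finset.prod_mul_distrib]
  refine Finset.prod_eq_one fun i _ => ?_
  rw [← mul_pow, Units.inv_mul, one_pow]

theorem good (hC : Stmt_CHT.{u}) (hD : DIA2.Stmt_DIF.{u}) [Fact p.Prime] [CharP R p]
    (X : BMod p R m N) (F : Frob p (Fin m) (ZMod p) R) (hX : X.Good) (hF : X.FGood F)
    (e : Fin m → Fin N → ℕ)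
    (he : ∀ v w, (∏ i, (X.t v i : R) ^ e v i) * (∏ i, (((X.t w i)⁻¹ : Rˣ) : R) ^ e w i) ∈
      X.As {v, w}) : X.lat.Good F (X.T e) where
  A_mono s t _ hst := fun a ha => As_mono X hst ha
  W_mono s t _ hst := W_mono X hst
  W_smul s _ a ha w hw := smul_W X ha hw
  D_mem s hs a ha := D_mem hC hD X hX hs ha
  dW s hs w hw := dW hC hD X hX hs hw
  θ_mem s v hv w hw := by
    refine W_ind X (P := fun w => F.θ v w ∈ X.lat.W s) ?_ ?_ ?_ ?_ hw
    · rw [map_zero]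
      exact zero_mem _
    · intro v' hv' i
      obtain ⟨a, ha, h1⟩ := hF.θ_mem s v' hv' v hv i
      rw [h1]
      exact add_mem (lg_W X hv' i) (D_mem hC hD X hX ⟨v, hv⟩ ha)
    · intro x y hx hy
      rw [map_add]
      exact add_mem hx hy
    · intro a ha x _ hx
      rw [F.θ_smul]
      exact smul_W X (pow_mem ha p) hx
  h_mem s v hv v' hv' w hw := by
    refine W_ind X (P := fun w => F.h v v' w ∈ X.lat.A s) ?_ ?_ ?_ ?_ hw
    · rw [map_zero]
      exact zero_mem _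
    · intro z hz i
      exact hF.h_mem s z hz v hv v' hv' i
    · intro x y hx hy
      rw [map_add]
      exact add_mem hx hy
    · intro a ha x _ hx
      rw [F.h_smul]
      exact mul_mem (pow_mem ha p) hx
  T_mono s t hs hst := by
    have ht : t.Nonempty := hs.mono hst
    refine ⟨(∏ i, (X.t (s.min' hs) i : R) ^ e (s.min' hs) i) *
      (∏ i, (((X.t (t.min' ht) i)⁻¹ : Rˣ) : R) ^ e (t.min' ht) i), ?_, ?_⟩
    · refine As_mono X (s := {s.min' hs, t.min' ht}) ?_ (he _ _)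
      intro x hx
      rw [Finset.mem_insert, Finset.mem_singleton] at hx
      rcases hx with rfl | rfl
      · exact hst (s.min'_mem hs)
      · exact t.min'_mem ht
    · rw [T_eq X e hs, T_eq X e ht, mon, mon, mul_assoc, prod_inv, mul_one]
  T_d s hs := by
    refine ⟨∑ i, ((e (s.min' hs) i : ℕ) : R) • lg (X.t (s.min' hs) i), ?_, ?_⟩
    · exact sum_mem fun i _ => smul_W X (natCast_mem _ _) (lg_W X (s.min'_mem hs) i)
    · rw [T_eq X e hs, mon, D_prod]

end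

end GOO_

theorem goo_proof (hCHT : Stmt_CHT.{u}) (hDIF : DIA2.Stmt_DIF.{u}) : Stmt_GOO.{u} := by
  intro p _ R _ _ _ m N X F hX hF
  exact ⟨GOO_.good hCHT hDIF X F hX hF X.c hX.c_glue, GOO_.good hCHT hDIF X F hX hF X.c' hX.c'_glue⟩

end Pool.Agent.DBX.DIA
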