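import Pool.Agent.DBX.DIA.Stmts

/-!
# DBX, area DIA: KSL, Frobenius semilinear maps on differentials
-/

set_option autoImplicit false

namespace Pool.Agent.DBX.DIA

open KaehlerDifferential Pool.Agent.DBE Pool.Agent.DBX Pool.Agent.DBX.DIB Pool.Agent.DBX.DIA2

universe u

namespace KSL_

noncomputable section

/-- `M` with `R` acting through the Frobenius -/
@[nolint unusedArguments]
def MF (_p : ℕ) (_R M : Type u) : Type u := M

section

variable (p : ℕ) [Fact p.Prime] (R : Type u) [CommRing R] [Algebra (ZMod p) R] [CharP R p]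
  (M : Type u) [AddCommGroup M] [Module R M]

instance instAdd : AddCommGroup (MF p R M) := inferInstanceAs (AddCommGroup M)

instance instMod : Module R (MF p R M) := Module.compHom M (frobenius R p)

instance instModZ : Module (ZMod p) (MF p R M) :=
  Module.compHom (MF p R M) (algebraMap (ZMod p) R)

instance instTower : IsScalarTower (ZMod p) R (MF p R M) :=
  ⟨fun a b c => by
    change (a • b) • c = (algebraMap (ZMod p) R a) • (b • c)
    rw [Algebra.smul_def, mul_smul]⟩

variable {p R M}

/-- the derivation -/
def der (δ : R →+ M) (h : ∀ a b, δ (a * b) = a ^ p • δ b + b ^ p • δ a) :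
    Derivation (ZMod p) R (MF p R M) :=
  Derivation.mk' (AddMonoidHom.toZModLinearMap (M₁ := MF p R M) p (show R →+ MF p R M from δ))
    (fun a b => h a b)

end

end

end KSL_

open KSL_ in
theorem ksl_proof : Stmt_KSL.{u} := by
  intro p _ R _ _ _ M _ _ δ h
  let L : Ω[R⁄ZMod p] →ₗ[R] MF p R M := (der δ h).liftKaehlerDifferential
  refine ⟨show Ω[R⁄ZMod p] →+ M from L.toAddMonoidHom, ?_, ?_⟩
  · intro a w
    exact L.map_smul a w
  · intro a
    exact Derivation.liftKaehlerDifferential_comp_D (der δ h) a

end Pool.Agent.DBX.DIA
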