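import Pool.Agent.DBX.DIA.Stmts

/-!
# DBX, area DIA: LCA, localisation inside a ring
-/

set_option autoImplicit false

namespace Pool.Agent.DBX.DIA

open KaehlerDifferential Pool.Agent.DBE Pool.Agent.DBX Pool.Agent.DBX.DIB Pool.Agent.DBX.DIA2

universe u

namespace LCA_

/-- a criterion: `S` is the localisation of `A` at `g` -/
theorem away_of {A S : Type u} [CommRing A] [CommRing S] [Algebra A S] (g : A)
    (hinj : Function.Injective (algebraMap A S)) (hu : IsUnit (algebraMap A S g))
    (hs : ∀ z : S, ∃ (e : ℕ) (a : A), z * algebraMap A S g ^ e = algebraMap A S a) :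
    IsLocalization.Away g S := by
  refine (isLocalization_iff (Submonoid.powers g) S).2 ⟨?_, ?_, ?_⟩
  · rintro ⟨_, n, rfl⟩
    simpa using hu.pow n
  · intro z
    obtain ⟨e, a, h⟩ := hs z
    exact ⟨(a, ⟨g ^ e, e, rfl⟩), by simpa using h⟩
  · intro x y h
    exact ⟨1, by rw [hinj h]⟩

/-- composition of étale ring homomorphisms, with arbitrary universes -/
theorem etale_comp {P A B : Type*} [CommRing P] [CommRing A] [CommRing B] (f : P →+* A)
    (g : A →+* B) (hf : f.Etale) (hg : g.Etale) : (g.comp f).Etale := by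
  letI := f.toAlgebra
  letI := g.toAlgebra
  letI := (g.comp f).toAlgebra
  haveI : IsScalarTower P A B := IsScalarTower.of_algebraMap_eq (fun _ => rfl)
  haveI : Algebra.Etale P A := hf
  haveI : Algebra.Etale A B := hg
  exact (Algebra.Etale.comp P A B : Algebra.Etale P B)

end LCA_

open LCA_ in
theorem lca_proof : Stmt_LCA.{u} := by
  intro Λ Q _ _ _ A g hg
  refine ⟨fun h => ?_, ?_⟩
  · refine away_of _ Subtype.val_injective g.isUnit ?_
    intro z
    obtain ⟨e, he⟩ := h z
    exact ⟨e, ⟨_, he⟩, rfl⟩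
  · intro B hAB hginv h P _ f hf
    refine etale_comp _ _ hf ?_
    letI : Algebra A B := ((Subalgebra.inclusion hAB : A →ₐ[Λ] B) : A →+* B).toAlgebra
    have key : IsLocalization.Away (⟨(g : Q), hg⟩ : A) B := by
      refine away_of _ ?_ ?_ ?_
      · exact Subalgebra.inclusion_injective hAB
      · refine IsUnit.of_mul_eq_one (⟨((g⁻¹ : Qˣ) : Q), hginv⟩ : B) ?_
        apply Subtype.ext
        exact g.mul_inv
      · intro z
        obtain ⟨e, he⟩ := h z.1 z.2
        exact ⟨e, ⟨_, he⟩, by apply Subtype.ext; rfl⟩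
    haveI := key
    exact (Algebra.Etale.of_isLocalizationAway (⟨(g : Q), hg⟩ : A) : Algebra.Etale A B)

end Pool.Agent.DBX.DIA
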