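import Pool.Agent.DBX.DIA.Stmts

set_option autoImplicit false

namespace Pool.Agent.DBX.DIA

open KaehlerDifferential Pool.Agent.DBE Pool.Agent.DBX Pool.Agent.DBX.DIB Pool.Agent.DBX.DIA2

universe u

namespace LFR_

theorem p_sq {p : ℕ} {A : Type*} [CommRing A] [Algebra (ZMod (p ^ 2)) A] : (p : A) ^ 2 = 0 := by
  have h : ((p ^ 2 : ℕ) : ZMod (p ^ 2)) = 0 := ZMod.natCast_self _
  have h2 := congrArg (algebraMap (ZMod (p ^ 2)) A) h
  rw [map_natCast, map_zero, Nat.cast_pow] at h2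
  exact h2

theorem le_As {p : ℕ} {Q : Type u} [CommRing Q] [Algebra (ZMod (p ^ 2)) Q] {m N : ℕ}
    (Y : DMod p Q m N) {σ : Finset (Fin m)} {v : Fin m} (hv : v ∈ σ) : Y.A v ≤ Y.As σ :=
  le_iSup₂_of_le v hv le_rfl

theorem As_mono {p : ℕ} {Q : Type u} [CommRing Q] [Algebra (ZMod (p ^ 2)) Q] {m N : ℕ}
    (Y : DMod p Q m N) {σ τ : Finset (Fin m)} (h : σ ⊆ τ) : Y.As σ ≤ Y.As τ :=
  iSup₂_le fun _ hv => le_As Y (h hv)

end LFR_

open LFR_ in
theorem lfr_proof (hRAS : Stmt_RAS.{u}) (hRED : Stmt_RED.{u}) (hCHT : Stmt_CHT.{u})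
    (hTNZ : Stmt_TNZ.{u}) : Stmt_LFR.{u} := by
  intro p hp Q R _ _ _ _ m N Y π hY hπ φ hφ σ v hv w hw i
  have hp2 : (p : Q) ^ 2 = 0 := p_sq
  have hAv : Y.A v ≤ Y.As σ := le_As Y hv
  have hxS : (Y.t v i : Q) ∈ Y.As σ := hAv (hY.t_mem v i)
  obtain ⟨y, hyS, hy⟩ := hφ.As σ w hw (Y.t v i : Q) hxS
  by_cases hc : Y.c v i = 0
  · refine ⟨(((Y.t v i)⁻¹ : Qˣ) : Q) ^ p * y,
      mul_mem (pow_mem (hAv (hY.t_inv v i hc)) p) hyS, ?_⟩
    have h1 : (Y.t v i : Q) ^ p * (((Y.t v i)⁻¹ : Qˣ) : Q) ^ p = 1 := by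
      rw [← mul_pow, Units.mul_inv, one_pow]
    rw [hy]
    linear_combination (-(p : Q) * y) * h1
  · have hc1 : Y.c v i = 1 := le_antisymm (hY.c_le v i) (Nat.one_le_iff_ne_zero.mpr hc)
    have hsub : ({v, w} : Finset (Fin m)) ⊆ σ := by
      intro z hz
      rcases Finset.mem_insert.mp hz with rfl | hz
      · exact hv
      · rw [Finset.mem_singleton.mp hz]; exact hw
    have hsub' : ({w, v} : Finset (Fin m)) ⊆ σ := by
      intro z hz
      rcases Finset.mem_insert.mp hz with rfl | hz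
      · exact hw
      · rw [Finset.mem_singleton.mp hz]; exact hv
    -- the divisors
    set Dv : Q := ∏ j, (Y.t v j : Q) ^ Y.c v j with hDv
    set Dw : Q := ∏ j, (Y.t w j : Q) ^ Y.c w j with hDw
    set Dvi : Q := ∏ j, (((Y.t v j)⁻¹ : Qˣ) : Q) ^ Y.c v j with hDvi
    set Dwi : Q := ∏ j, (((Y.t w j)⁻¹ : Qˣ) : Q) ^ Y.c w j with hDwi
    have hvv : Dv * Dvi = 1 := by
      rw [hDv, hDvi, ← Finset.prod_mul_distrib]
      exact Finset.prod_eq_one fun j _ => by rw [← mul_pow, Units.mul_inv, one_pow]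
    have hww : Dw * Dwi = 1 := by
      rw [hDw, hDwi, ← Finset.prod_mul_distrib]
      exact Finset.prod_eq_one fun j _ => by rw [← mul_pow, Units.mul_inv, one_pow]
    have huS : Dv * Dwi ∈ Y.As σ := As_mono Y hsub (hY.c_glue v w)
    have huiS : Dw * Dvi ∈ Y.As σ := As_mono Y hsub' (hY.c_glue w v)
    have huu : (Dv * Dwi) * (Dw * Dvi) = 1 := by
      calc (Dv * Dwi) * (Dw * Dvi) = (Dv * Dvi) * (Dw * Dwi) := by ring
        _ = 1 := by rw [hvv, hww, one_mul]
    obtain ⟨yu, hyuS, hyu⟩ := hφ.As σ w hw _ huS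
    set a' : Q := (Dw * Dvi) ^ p * yu with ha'
    have ha'S : a' ∈ Y.As σ := mul_mem (pow_mem huiS p) hyuS
    have hφDw : φ w Dw = Dw ^ p := by
      rw [hDw, map_prod, ← Finset.prod_pow]
      refine Finset.prod_congr rfl fun j _ => ?_
      rw [map_pow, hφ.t w j, ← pow_mul, ← pow_mul, mul_comm]
    have hφDv : φ w Dv = Dv ^ p * (1 + (p : Q) * a') := by
      have h1 : Dv = (Dv * Dwi) * Dw := by
        calc Dv = Dv * (Dw * Dwi) := by rw [hww, mul_one]
          _ = _ := by ring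
      have h2 : ((Dv * Dwi) * (Dw * Dvi)) ^ p = 1 := by rw [huu, one_pow]
      have h3 : (Dv * Dwi) ^ p * (Dw * Dvi) ^ p = 1 := by rw [← mul_pow]; exact h2
      calc φ w Dv = φ w ((Dv * Dwi) * Dw) := by rw [← h1]
        _ = ((Dv * Dwi) ^ p + (p : Q) * yu) * Dw ^ p := by rw [map_mul, hyu, hφDw]
        _ = ((Dv * Dwi) ^ p + ((Dv * Dwi) ^ p * (Dw * Dvi) ^ p) * ((p : Q) * yu)) * Dw ^ p := by
          rw [h3, one_mul]
        _ = ((Dv * Dwi) * Dw) ^ p * (1 + (p : Q) * a') := by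
          rw [ha', mul_pow (Dv * Dwi) Dw]; ring
        _ = _ := by rw [← h1]
    -- the complementary factor
    set g : Q := ∏ j ∈ Finset.univ.erase i, (Y.t v j : Q) ^ Y.c v j with hg
    have hDg : Dv = (Y.t v i : Q) * g := by
      rw [hDv, hg, ← Finset.mul_prod_erase Finset.univ _ (Finset.mem_univ i), hc1, pow_one]
    have hgS : g ∈ Y.As σ :=
      prod_mem fun j _ => pow_mem (hAv (hY.t_mem v j)) _
    obtain ⟨yg, hygS, hyg⟩ := hφ.As σ w hw g hgS
    set x : Q := (Y.t v i : Q) with hx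
    have hkey : (p : Q) * (g ^ p * y + x ^ p * yg - a' * x ^ p * g ^ p) = 0 := by
      have h1 : φ w Dv = (x ^ p + (p : Q) * y) * (g ^ p + (p : Q) * yg) := by
        rw [hDg, map_mul, hy, hyg]
      rw [hφDv, hDg, mul_pow] at h1
      linear_combination (-1 : Q) * h1 - (y * yg) * hp2
    obtain ⟨q', hq'⟩ := hY.flat _ hkey
    have hπ0 : π (g ^ p * y + x ^ p * yg - a' * x ^ p * g ^ p) = 0 :=
      (hπ.ker _).mpr ⟨q', hq'⟩
    have hX : (red Y π).Good := hRED p Q R m N Y π hY hπ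
    have hch : Chart p R ((red Y π).As σ) ((red Y π).t v) := hCHT p R m N (red Y π) hX σ v hv
    have hmem : ∀ s ∈ Y.As σ, π s ∈ (red Y π).As σ := fun s hs =>
      ((hRAS p Q R m N Y π).2 σ (π s)).mpr ⟨s, hs, rfl⟩
    have hmon : mon ((red Y π).t v) (fun j => if j = i then 0 else p * Y.c v j) = π g ^ p := by
      have h1 : mon ((red Y π).t v) (fun j => if j = i then 0 else p * Y.c v j) =
          ∏ j, (((red Y π).t v j : Rˣ) : R) ^ (if j = i then 0 else p * Y.c v j) := rfl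
      rw [h1, ← Finset.mul_prod_erase Finset.univ _ (Finset.mem_univ i), if_pos rfl, pow_zero,
        one_mul, hg, map_prod, ← Finset.prod_pow]
      refine Finset.prod_congr rfl fun j hj => ?_
      rw [if_neg (Finset.ne_of_mem_erase hj), map_pow, ← pow_mul, mul_comm]
      rfl
    obtain ⟨z, hz, hyz⟩ := hTNZ p N R ((red Y π).As σ) ((red Y π).t v) hch i
      (fun j => if j = i then 0 else p * Y.c v j) p (if_pos rfl) (π y) (hmem y hyS)
      (π a' * π g ^ p - π yg) (sub_mem (mul_mem (hmem _ ha'S) (pow_mem (hmem _ hgS) p))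
        (hmem _ hygS)) (by
        rw [hmon]
        have h2 : (((red Y π).t v i : Rˣ) : R) = π x := rfl
        rw [h2]
        have h3 : π g ^ p * π y + π x ^ p * π yg - π a' * π x ^ p * π g ^ p = 0 := by
          rw [map_sub, map_add, map_mul, map_mul, map_mul, map_mul, map_pow, map_pow] at hπ0
          exact hπ0
        linear_combination h3)
    obtain ⟨z', hz'S, hz'⟩ := ((hRAS p Q R m N Y π).2 σ z).mp hz
    have h4 : π (y - x ^ p * z') = 0 := by
      rw [map_sub, map_mul, map_pow, hz', hyz]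
      have h2 : (((red Y π).t v i : Rˣ) : R) = π x := rfl
      rw [h2]; ring
    obtain ⟨q, hq⟩ := (hπ.ker _).mp h4
    refine ⟨z', hz'S, ?_⟩
    rw [hy]
    linear_combination (p : Q) * hq + q * hp2

end Pool.Agent.DBX.DIA
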