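import Pool.Agent.DBX.DIA.Stmts

/-!
# DBX, area DIA, module LGD: logarithmic differentials of the divisors of a squarefree monomial.
-/

set_option autoImplicit false

namespace Pool.Agent.DBX.DIA

open KaehlerDifferential Pool.Agent.DBE Pool.Agent.DBX Pool.Agent.DBX.DIB Pool.Agent.DBX.DIA2

universe u

namespace LGD_

variable {p N : ℕ} {R : Type u} [CommRing R] [Algebra (ZMod p) R]
  {A : Subalgebra (ZMod p) R} {t : Fin N → Rˣ} {θ : Fin N → R →+ R}

theorem th_one (h : IsTh A t θ) (i : Fin N) : θ i 1 = 0 := by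
  have := h.leib i 1 1
  simpa using this

theorem th_pow (h : IsTh A t θ) (i j : Fin N) (k : ℕ) :
    θ i ((t j : R) ^ k) = (if i = j then (k : R) else 0) * (t j : R) ^ k := by
  induction k with
  | zero => simp [th_one h i]
  | succ k ih =>
    rw [pow_succ, h.leib, ih, h.coord]
    split_ifs
    · push_cast; ring
    · ring

theorem th_prod (h : IsTh A t θ) (i : Fin N) (c : Fin N → ℕ) (S : Finset (Fin N)) :
    θ i (∏ j ∈ S, (t j : R) ^ c j) = (if i ∈ S then (c i : R) else 0) *
      ∏ j ∈ S, (t j : R) ^ c j := by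
  classical
  induction S using Finset.induction_on with
  | empty => simp [th_one h i]
  | insert a S ha ih =>
    rw [Finset.prod_insert ha, h.leib, ih, th_pow h]
    by_cases hia : i = a
    · subst hia
      rw [if_neg ha, if_pos rfl, if_pos (Finset.mem_insert_self _ _)]
      ring
    · rw [if_neg hia]
      by_cases hiS : i ∈ S
      · rw [if_pos hiS, if_pos (Finset.mem_insert_of_mem hiS)]
        ring
      · have : i ∉ insert a S := by
          simp [hia, hiS]
        rw [if_neg hiS, if_neg this]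
        ring

theorem th_mon (h : IsTh A t θ) (i : Fin N) (c : Fin N → ℕ) :
    θ i (mon t c) = (c i : R) * mon t c := by
  have := th_prod h i c Finset.univ
  rw [if_pos (Finset.mem_univ _)] at this
  exact this

theorem mon_unit (t : Fin N → Rˣ) (c : Fin N → ℕ) : IsUnit (mon t c) := by
  unfold mon
  have : (∏ i, (t i : R) ^ c i) = ((∏ i, (t i) ^ c i : Rˣ) : R) := by
    push_cast; rfl
  rw [this]
  exact Units.isUnit _

theorem mon_mem (hA : ∀ i, (t i : R) ∈ A) (c : Fin N → ℕ) : mon t c ∈ A :=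
  Subalgebra.prod_mem _ (fun i _ => Subalgebra.pow_mem _ (hA i) _)

end LGD_

open LGD_ in
theorem lgd_proof (hDIF : DIA2.Stmt_DIF.{u}) (hRDU : Stmt_RDU.{u}) : Stmt_LGD.{u} := by
  intro p _ N R _ _ _ A t hch c hc f g w hf hg hw hw' hfg
  obtain ⟨θ, hθ⟩ := hDIF p N R A t hch
  have hgu : IsUnit g := by
    have h1 : IsUnit ((f : R) * g) := by
      rw [hfg]
      exact w.isUnit.mul (mon_unit t c)
    exact isUnit_of_mul_isUnit_right h1
  have key : ∀ i, ∃ z ∈ A, θ i (f : R) = (f : R) * (((w⁻¹ : Rˣ) : R) * z) := by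
    intro i
    set x := θ i (f : R) with hx
    set y := ((w⁻¹ : Rˣ) : R) * g * ((w : R) * c i + θ i (w : R)) - θ i g with hy
    have hxA : x ∈ A := hθ.mem i _ hf
    have hyA : y ∈ A := by
      refine Subalgebra.sub_mem _ (Subalgebra.mul_mem _ (Subalgebra.mul_mem _ hw' hg) ?_)
        (hθ.mem i _ hg)
      exact Subalgebra.add_mem _ (Subalgebra.mul_mem _ hw (Subalgebra.natCast_mem _ _))
        (hθ.mem i _ hw)
    have hmon : mon t c = ((w⁻¹ : Rˣ) : R) * ((f : R) * g) := by
      rw [hfg, ← mul_assoc, Units.inv_mul, one_mul]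
    have h1 : (f : R) * θ i g + g * x = (w : R) * ((c i : R) * mon t c) + mon t c * θ i (w : R) := by
      have h2 := congrArg (θ i) hfg
      rw [hθ.leib, hθ.leib, th_mon hθ] at h2
      exact h2
    have h3 : g * x = (f : R) * y := by
      have : g * x = mon t c * ((w : R) * c i + θ i (w : R)) - (f : R) * θ i g := by
        linear_combination h1
      rw [this, hmon, hy]
      ring
    have h4 : (g * x) ^ 2 = mon t c * ((w : R) * x * y) := by
      have : (g * x) ^ 2 = ((f : R) * g) * x * y := by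
        rw [sq]
        nth_rewrite 2 [h3]
        ring
      rw [this, hfg]
      ring
    obtain ⟨z, hzA, hz⟩ := hRDU p N R A t hch c hc (g * x) (Subalgebra.mul_mem _ hg hxA)
      ((w : R) * x * y) (Subalgebra.mul_mem _ (Subalgebra.mul_mem _ hw hxA) hyA) h4
    refine ⟨z, hzA, ?_⟩
    rw [hmon] at hz
    apply hgu.mul_left_cancel
    rw [hz]
    ring
  choose z hzA hz using key
  refine ⟨fun i => ((w⁻¹ : Rˣ) : R) * z i, fun i => Subalgebra.mul_mem _ hw' (hzA i), ?_⟩
  have h5 : lg (p := p) f = ((f⁻¹ : Rˣ) : R) • D (ZMod p) R (f : R) := rfl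
  rw [h5, hθ.D_eq, Finset.smul_sum]
  refine Finset.sum_congr rfl (fun i _ => ?_)
  rw [smul_smul, hz i, ← mul_assoc, Units.inv_mul, one_mul]

end Pool.Agent.DBX.DIA
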