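import Pool.Agent.DBX.DIA.Stmts

set_option autoImplicit false

namespace Pool.Agent.DBX.DIA

open KaehlerDifferential Pool.Agent.DBE Pool.Agent.DBX Pool.Agent.DBX.DIB Pool.Agent.DBX.DIA2

universe u

namespace LIA_

theorem lift_aux {P A B : Type*} [CommRing P] [CommRing A] [CommRing B] (f : P →+* A)
    (g : P →+* B) (hf : f.Etale) (I : Ideal B) (hI : IsNilpotent I) (φ0 : A →+* B ⧸ I)
    (h : ∀ x : P, φ0 (f x) = Ideal.Quotient.mk I (g x)) :
    ∃ φ : A →+* B, (∀ x, Ideal.Quotient.mk I (φ x) = φ0 x) ∧ ∀ x : P, φ (f x) = g x := by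
  letI := f.toAlgebra
  letI := g.toAlgebra
  haveI : Algebra.Etale P A := hf
  let φ1 : A →ₐ[P] B ⧸ I := { φ0 with commutes' := fun x => h x }
  refine ⟨(Algebra.FormallySmooth.lift I hI φ1 : A →ₐ[P] B), fun x => ?_, fun x => ?_⟩
  · exact Algebra.FormallySmooth.mk_lift I hI φ1 x
  · exact (Algebra.FormallySmooth.lift I hI φ1).commutes x

theorem p_sq {p : ℕ} {A : Type*} [CommRing A] [Algebra (ZMod (p ^ 2)) A] : (p : A) ^ 2 = 0 := by
  have h : ((p ^ 2 : ℕ) : ZMod (p ^ 2)) = 0 := ZMod.natCast_self _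
  have h2 := congrArg (algebraMap (ZMod (p ^ 2)) A) h
  rw [map_natCast, map_zero, Nat.cast_pow] at h2
  exact h2

end LIA_

open LIA_ in
theorem lia_proof : Stmt_LIA.{u} := by
  intro p hp A _ _ N t het
  rcases subsingleton_or_nontrivial A with hA | hA
  · exact ⟨RingHom.id A, fun x => ⟨0, Subsingleton.elim _ _⟩, fun i => Subsingleton.elim _ _⟩
  set I : Ideal A := Ideal.span {(p : A)} with hIdef
  have hI2 : I ^ 2 = ⊥ := by
    rw [hIdef, Ideal.span_singleton_pow, p_sq, Ideal.span_singleton_eq_bot]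
  have hnil : IsNilpotent I := ⟨2, hI2⟩
  haveI : Nontrivial (A ⧸ I) := by
    rw [Ideal.Quotient.nontrivial_iff]
    intro h
    rw [h, Ideal.top_pow] at hI2
    exact top_ne_bot hI2
  haveI : CharP (A ⧸ I) p := by
    rw [CharP.charP_iff_prime_eq_zero hp.out]
    have : Ideal.Quotient.mk I (p : A) = 0 :=
      Ideal.Quotient.eq_zero_iff_mem.mpr (Ideal.mem_span_singleton_self _)
    rwa [map_natCast] at this
  let f : MvPolynomial (Fin N) (ZMod (p ^ 2)) →+* A :=
    (MvPolynomial.aeval (R := ZMod (p ^ 2)) t).toRingHom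
  let g : MvPolynomial (Fin N) (ZMod (p ^ 2)) →+* A :=
    (MvPolynomial.aeval (R := ZMod (p ^ 2)) (fun i => t i ^ p)).toRingHom
  let φ0 : A →+* A ⧸ I := (frobenius (A ⧸ I) p).comp (Ideal.Quotient.mk I)
  have h0 : φ0.comp f = (Ideal.Quotient.mk I).comp g := by
    apply MvPolynomial.ringHom_ext'
    · exact Subsingleton.elim _ _
    · intro i
      show frobenius (A ⧸ I) p (Ideal.Quotient.mk I
        (MvPolynomial.aeval (R := ZMod (p ^ 2)) t (MvPolynomial.X i))) =
        Ideal.Quotient.mk I (MvPolynomial.aeval (R := ZMod (p ^ 2)) (fun i => t i ^ p)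
          (MvPolynomial.X i))
      rw [MvPolynomial.aeval_X, MvPolynomial.aeval_X, frobenius_def, map_pow]
  obtain ⟨φ, hφ1, hφ2⟩ := lift_aux f g het I hnil φ0 (fun x => RingHom.congr_fun h0 x)
  refine ⟨φ, fun x => ?_, fun i => ?_⟩
  · have h1 : Ideal.Quotient.mk I (φ x) = Ideal.Quotient.mk I (x ^ p) := by
      rw [hφ1, map_pow]; rfl
    rw [Ideal.Quotient.eq, hIdef, Ideal.mem_span_singleton] at h1
    obtain ⟨y, hy⟩ := h1
    exact ⟨y, by rw [← hy]; ring⟩
  · have h2 := hφ2 (MvPolynomial.X i)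
    have h3 : f (MvPolynomial.X i) = t i := MvPolynomial.aeval_X _ _
    have h4 : g (MvPolynomial.X i) = t i ^ p := MvPolynomial.aeval_X _ _
    rw [h3, h4] at h2
    exact h2

end Pool.Agent.DBX.DIA
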