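import Pool.Agent.DBX.DIA.Stmts

set_option autoImplicit false

/-! # DBX, area DIA: module LIF (extension of Frobenius lifts to localisations) -/

namespace Pool.Agent.DBX.DIA

open KaehlerDifferential Pool.Agent.DBE Pool.Agent.DBX Pool.Agent.DBX.DIB Pool.Agent.DBX.DIA2

universe u

theorem lif_proof (hLCA : Stmt_LCA.{u}) : Stmt_LIF.{u} := by
  intro p _ Q _ _ A g hg hloc φ hφ
  have hp2 : (p : Q) ^ 2 = 0 := by
    have h1 : ((p ^ 2 : ℕ) : ZMod (p ^ 2)) = 0 := ZMod.natCast_self _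
    have h2 := congrArg (algebraMap (ZMod (p ^ 2)) Q) h1
    rw [map_zero, map_natCast, Nat.cast_pow] at h2
    exact h2
  have hA := (hLCA (ZMod (p ^ 2)) Q A g hg).1 hloc
  have hunit : IsUnit (((A.val : A →+* Q).comp φ) (⟨(g : Q), hg⟩ : A)) := by
    obtain ⟨y, hy⟩ := hφ (⟨(g : Q), hg⟩ : A)
    have h1 : ((A.val : A →+* Q).comp φ) (⟨(g : Q), hg⟩ : A) =
        (g : Q) ^ p + (p : Q) * (y : Q) := by
      change ((φ (⟨(g : Q), hg⟩ : A) : A) : Q) = _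
      rw [hy]
      push_cast
      rfl
    rw [h1]
    have h2 : ((g ^ p : Qˣ) : Q) * (((g ^ p)⁻¹ : Qˣ) : Q) = 1 := Units.mul_inv _
    have h3 : ((g : Q) ^ p + (p : Q) * (y : Q)) *
        ((((g ^ p)⁻¹ : Qˣ) : Q) * (1 - (p : Q) * (y : Q) * (((g ^ p)⁻¹ : Qˣ) : Q))) = 1 := by
      rw [Units.val_pow_eq_pow_val] at h2
      linear_combination (1 - (p : Q) * y * (((g ^ p)⁻¹ : Qˣ) : Q)) * h2 -
        (y : Q) ^ 2 * (((g ^ p)⁻¹ : Qˣ) : Q) ^ 2 * hp2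
    exact IsUnit.of_mul_eq_one _ h3
  refine ⟨IsLocalization.Away.lift (⟨(g : Q), hg⟩ : A) hunit, ?_, ?_⟩
  · intro x
    exact IsLocalization.Away.lift_eq (⟨(g : Q), hg⟩ : A) hunit x
  · intro x
    set ψ : Q →+* Q := IsLocalization.Away.lift (⟨(g : Q), hg⟩ : A) hunit with hψ
    have hψA : ∀ x : A, ψ (x : Q) = (φ x : Q) :=
      fun x => IsLocalization.Away.lift_eq (⟨(g : Q), hg⟩ : A) hunit x
    have hdiv : ∀ x : A, (p : Q) ∣ ψ (x : Q) - (x : Q) ^ p := by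
      intro x
      obtain ⟨y, hy⟩ := hφ x
      refine ⟨(y : Q), ?_⟩
      rw [hψA, hy]
      push_cast
      ring
    obtain ⟨e, he⟩ := hloc x
    have h1 := hdiv ⟨_, he⟩
    have h2 : (p : Q) ∣ ψ (g : Q) ^ e - ((g : Q) ^ p) ^ e :=
      dvd_trans (hdiv ⟨_, hg⟩) (sub_dvd_pow_sub_pow _ _ e)
    have h3 : IsUnit (ψ (g : Q) ^ e) := (g.isUnit.map ψ).pow e
    have h4 : (p : Q) ∣ (ψ x - x ^ p) * ψ (g : Q) ^ e := by
      have h5 : (ψ x - x ^ p) * ψ (g : Q) ^ e =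
          (ψ (x * (g : Q) ^ e) - (x * (g : Q) ^ e) ^ p) -
            x ^ p * (ψ (g : Q) ^ e - ((g : Q) ^ p) ^ e) := by
        rw [map_mul, map_pow, mul_pow, ← pow_mul, ← pow_mul, mul_comm e p]
        ring
      rw [h5]
      exact dvd_sub h1 (Dvd.dvd.mul_left h2 _)
    rw [h3.dvd_mul_right] at h4
    obtain ⟨y, hy⟩ := h4
    exact ⟨y, by rw [← hy]; ring⟩

end Pool.Agent.DBX.DIA
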