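import Pool.Agent.DBX.DIA.Stmts

/-!
# DBX, area DIA, module LIS: existence of the adapted Frobenius lifts
-/

set_option autoImplicit false

namespace Pool.Agent.DBX.DIA

open KaehlerDifferential Pool.Agent.DBE Pool.Agent.DBX Pool.Agent.DBX.DIB Pool.Agent.DBX.DIA2

universe u

noncomputable section

namespace LIS_

variable {p : ℕ} {Q : Type u} [CommRing Q] [Algebra (ZMod (p ^ 2)) Q]

variable (p Q) in
theorem p_sq : (p : Q) ^ 2 = 0 := by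
  have h1 : ((p ^ 2 : ℕ) : Q) = algebraMap (ZMod (p ^ 2)) Q ((p ^ 2 : ℕ) : ZMod (p ^ 2)) :=
    (map_natCast _ _).symm
  rw [ZMod.natCast_self, map_zero] at h1
  rw [← h1]
  push_cast
  rfl

/-- ring homomorphisms respect the constants -/
theorem const (ψ : Q →+* Q) (r : ZMod (p ^ 2)) :
    ψ (algebraMap (ZMod (p ^ 2)) Q r) = algebraMap (ZMod (p ^ 2)) Q r := by
  have h : ψ.comp (algebraMap (ZMod (p ^ 2)) Q) = algebraMap (ZMod (p ^ 2)) Q :=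
    Subsingleton.elim _ _
  exact congrArg (fun f => f r) h

/-- preimage of a subalgebra -/
def pre (ψ : Q →+* Q) (S : Subalgebra (ZMod (p ^ 2)) Q) : Subalgebra (ZMod (p ^ 2)) Q :=
  { S.toSubring.comap ψ with
    algebraMap_mem' := fun r => by
      change ψ (algebraMap (ZMod (p ^ 2)) Q r) ∈ S
      rw [const]
      exact S.algebraMap_mem r }

theorem mem_pre (ψ : Q →+* Q) (S : Subalgebra (ZMod (p ^ 2)) Q) (x : Q) :
    x ∈ pre ψ S ↔ ψ x ∈ S := Iff.rfl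

/-- the inverse of an element close to a power -/
theorem inv_eq (ψ : Q →+* Q) {b c y : Q} (hbc : c * b = 1) (hb : ψ b = b ^ p + (p : Q) * y) :
    ψ c = c ^ p * (1 - (p : Q) * (y * c ^ p)) := by
  have h1 : ψ c * ψ b = 1 := by rw [← map_mul, hbc, map_one]
  have h2 : c ^ p * b ^ p = 1 := by rw [← mul_pow, hbc, one_pow]
  have h3 := p_sq p Q
  have h4 : ψ b * (c ^ p * (1 - (p : Q) * (y * c ^ p))) = 1 := by
    rw [hb]
    have : (b ^ p + (p : Q) * y) * (c ^ p * (1 - (p : Q) * (y * c ^ p))) =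
        (c ^ p * b ^ p) * (1 - (p : Q) * (y * c ^ p)) + (p : Q) * y * c ^ p -
          (p : Q) ^ 2 * (y ^ 2 * (c ^ p) ^ 2) := by ring
    rw [this, h2, h3]
    ring
  calc ψ c = ψ c * (ψ b * (c ^ p * (1 - (p : Q) * (y * c ^ p)))) := by rw [h4, mul_one]
    _ = c ^ p * (1 - (p : Q) * (y * c ^ p)) := by rw [← mul_assoc, h1, one_mul]

end LIS_

open LIS_ in
theorem lis_proof (hASG : Stmt_ASG.{u}) (hLIA : Stmt_LIA.{u}) (hLIF : Stmt_LIF.{u}) :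
    Stmt_LIS.{u} := by
  intro p _ Q _ _ m N Y hY
  obtain ⟨-, hsup, -, -⟩ := hASG (ZMod (p ^ 2)) Q m Y.h Y.A hY.h_mem hY.glue
  have key : ∀ v, ∃ ψ : Q →+* Q,
      (∀ x ∈ Y.A v, ∃ y ∈ Y.A v, ψ x = x ^ p + (p : Q) * y) ∧
      (∀ x, ∃ y, ψ x = x ^ p + (p : Q) * y) ∧ ∀ i, ψ (Y.t v i : Q) = (Y.t v i : Q) ^ p := by
    intro v
    obtain ⟨φA, h1, h2⟩ := hLIA p (Y.A v) N (fun i => ⟨(Y.t v i : Q), hY.t_mem v i⟩)
      (hY.etale v)
    let g : Qˣ := (∏ w, Y.h w * (Y.h v)⁻¹) * ∏ i, Y.t v i ^ Y.c v i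
    have hg : (g : Q) = (∏ w, (Y.h w : Q) * ((Y.h v)⁻¹ : Qˣ)) *
        ∏ i, (Y.t v i : Q) ^ Y.c v i := by
      simp only [g, Units.val_mul, Units.coe_prod, Units.val_pow_eq_pow_val]
    have hgA : (g : Q) ∈ Y.A v := by
      rw [hg]
      exact mul_mem (prod_mem (fun w _ => hY.h_mem v w))
        (prod_mem (fun i _ => pow_mem (hY.t_mem v i) _))
    have hloc : ∀ x : Q, ∃ e : ℕ, x * (g : Q) ^ e ∈ Y.A v := by
      intro x
      obtain ⟨e, he⟩ := hY.loc v x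
      refine ⟨e, ?_⟩
      rw [hg, mul_pow, ← mul_assoc]
      exact he
    obtain ⟨ψ, h3, h4⟩ := hLIF p Q (Y.A v) g hgA hloc φA h1
    refine ⟨ψ, ?_, h4, ?_⟩
    · intro x hx
      obtain ⟨y, hy⟩ := h1 ⟨x, hx⟩
      refine ⟨y, y.2, ?_⟩
      have h5 := h3 ⟨x, hx⟩
      rw [hy] at h5
      exact h5
    · intro i
      have h5 := h3 ⟨(Y.t v i : Q), hY.t_mem v i⟩
      rw [h2 i] at h5
      exact h5
  choose φ hA hfrob ht using key
  refine ⟨φ, hfrob, ?_, ht⟩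
  intro σ v hv x hx
  have hAσ : ∀ w ∈ σ, Y.A w ≤ Y.As σ := fun w hw => le_iSup₂_of_le w hw le_rfl
  have hle : Y.As σ ≤ pre (φ v) (Y.As σ) := by
    refine hsup σ v hv _ ?_ ?_
    · intro z hz
      obtain ⟨y, hy, h1⟩ := hA v z hz
      rw [mem_pre, h1]
      exact add_mem (pow_mem (hAσ v hv hz) p)
        (mul_mem (natCast_mem _ p) (hAσ v hv hy))
    · intro w hw
      obtain ⟨y, hy, h1⟩ := hA v _ (hY.h_mem v w)
      have hc : ((Y.h v : Q) * ((Y.h w)⁻¹ : Qˣ)) * ((Y.h w : Q) * ((Y.h v)⁻¹ : Qˣ)) = 1 := by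
        have e1 : ((Y.h w)⁻¹ : Qˣ) * (Y.h w : Q) = 1 := Units.inv_mul _
        have e2 : (Y.h v : Q) * ((Y.h v)⁻¹ : Qˣ) = 1 := Units.mul_inv _
        calc ((Y.h v : Q) * ((Y.h w)⁻¹ : Qˣ)) * ((Y.h w : Q) * ((Y.h v)⁻¹ : Qˣ))
            = ((Y.h v : Q) * ((Y.h v)⁻¹ : Qˣ)) * (((Y.h w)⁻¹ : Qˣ) * (Y.h w : Q)) := by ring
          _ = 1 := by rw [e1, e2, one_mul]
      have hc' : (Y.h v : Q) * ((Y.h w)⁻¹ : Qˣ) ∈ Y.As σ := hAσ w hw (hY.h_mem w v)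
      rw [mem_pre, inv_eq (φ v) hc h1]
      refine mul_mem (pow_mem hc' p) (sub_mem (one_mem _) (mul_mem (natCast_mem _ p)
        (mul_mem (hAσ v hv hy) (pow_mem hc' p))))
  have h1 : φ v x ∈ Y.As σ := hle hx
  obtain ⟨q, hq⟩ := hfrob v x
  have h2 : (p : Q) * q ∈ Y.As σ := by
    have h3 : (p : Q) * q = φ v x - x ^ p := by rw [hq]; ring
    rw [h3]
    exact sub_mem h1 (pow_mem hx p)
  obtain ⟨y, hy, h3⟩ := hY.sat σ ⟨v, hv⟩ q h2
  exact ⟨y, hy, by rw [h3, hq]⟩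

end

end Pool.Agent.DBX.DIA
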