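import Pool.Agent.DBX.DIA.Stmts

/-!
# DBX, area DIA, module LOG: the logarithmic lattice does not depend on the chart
-/

set_option autoImplicit false

namespace Pool.Agent.DBX.DIA

open KaehlerDifferential Pool.Agent.DBE Pool.Agent.DBX Pool.Agent.DBX.DIB Pool.Agent.DBX.DIA2

universe u

noncomputable section

namespace LOG_

variable {p : ℕ} {R : Type u} [CommRing R] [Algebra (ZMod p) R] {m N : ℕ}

theorem A_le_As (X : BMod p R m N) {σ : Finset (Fin m)} {v : Fin m} (hv : v ∈ σ) :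
    X.A v ≤ X.As σ :=
  le_iSup₂ (f := fun v (_ : v ∈ σ) => X.A v) v hv

theorem As_mono (X : BMod p R m N) {σ τ : Finset (Fin m)} (h : σ ⊆ τ) : X.As σ ≤ X.As τ :=
  iSup₂_le fun _ hv => A_le_As X (h hv)

theorem pair_sub {σ : Finset (Fin m)} {v w : Fin m} (hv : v ∈ σ) (hw : w ∈ σ) :
    ({v, w} : Finset (Fin m)) ⊆ σ := by
  intro z hz
  rw [Finset.mem_insert, Finset.mem_singleton] at hz
  rcases hz with rfl | rfl
  · exact hv
  · exact hw

/-- the transition unit -/
def U (X : BMod p R m N) (v w : Fin m) : Rˣ :=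
  (∏ i, (X.t v i) ^ X.c v i) * (∏ i, ((X.t w i)⁻¹) ^ X.c w i)

theorem U_coe (X : BMod p R m N) (v w : Fin m) : (U X v w : R) =
    (∏ i, (X.t v i : R) ^ X.c v i) * (∏ i, (((X.t w i)⁻¹ : Rˣ) : R) ^ X.c w i) := by
  unfold U
  rw [Units.val_mul, Units.coe_prod, Units.coe_prod]
  simp only [Units.val_pow_eq_pow_val]

theorem U_inv (X : BMod p R m N) (v w : Fin m) : (U X v w)⁻¹ = U X w v := by
  unfold U
  simp only [Finset.prod_inv_distrib, inv_pow, mul_inv, _root_.inv_inv]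
  rw [mul_comm]

end LOG_

open LOG_

theorem log_proof (hDIF : Pool.Agent.DBX.DIA2.Stmt_DIF.{u}) (hLGD : Stmt_LGD.{u})
    (hCHT : Stmt_CHT.{u}) : Stmt_LOG.{u} := by
  intro p _ R _ _ _ m N X hX σ v hv w hw j
  have hC : Chart p R (X.As σ) (X.t v) := hCHT p R m N X hX σ v hv
  by_cases h : X.c w j = 0
  · obtain ⟨θ, hθ⟩ := hDIF p N R (X.As σ) (X.t v) hC
    refine ⟨fun i => (((X.t w j)⁻¹ : Rˣ) : R) * θ i (X.t w j : R), fun i =>
      (X.As σ).mul_mem (A_le_As X hw (hX.t_inv w j h))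
        (hθ.mem i _ (A_le_As X hw (hX.t_mem w j))), ?_⟩
    have h1 : lg (p := p) (X.t w j) =
      (((X.t w j)⁻¹ : Rˣ) : R) • D (ZMod p) R (X.t w j : R) := rfl
    rw [h1, hθ.D_eq, Finset.smul_sum]
    exact Finset.sum_congr rfl fun i _ => smul_smul _ _ _
  · have hc1 : X.c w j = 1 := by
      have := hX.c_le w j
      omega
    have hu : (U X w v : R) ∈ X.As σ := by
      rw [U_coe]
      exact As_mono X (pair_sub hw hv) (hX.c_glue w v)
    have hu' : (((U X w v)⁻¹ : Rˣ) : R) ∈ X.As σ := by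
      rw [U_inv, U_coe]
      exact As_mono X (pair_sub hv hw) (hX.c_glue v w)
    refine hLGD p N R (X.As σ) (X.t v) hC (X.c v) (hX.c_le v) (X.t w j)
      (∏ i ∈ Finset.univ.erase j, (X.t w i : R) ^ X.c w i) (U X w v)
      (A_le_As X hw (hX.t_mem w j)) ?_ hu hu' ?_
    · refine Subalgebra.prod_mem _ fun i _ => ?_
      exact Subalgebra.pow_mem _ (A_le_As X hw (hX.t_mem w i)) _
    · have h1 : (X.t w j : R) * ∏ i ∈ Finset.univ.erase j, (X.t w i : R) ^ X.c w i =
          ∏ i, (X.t w i : R) ^ X.c w i := by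
        rw [← Finset.mul_prod_erase Finset.univ (fun i => (X.t w i : R) ^ X.c w i)
          (Finset.mem_univ j), hc1, pow_one]
      rw [h1, U_coe]
      unfold mon
      rw [mul_assoc, ← Finset.prod_mul_distrib]
      have h2 : ∏ i, (((X.t v i)⁻¹ : Rˣ) : R) ^ X.c v i * (X.t v i : R) ^ X.c v i = 1 := by
        refine Finset.prod_eq_one fun i _ => ?_
        rw [← mul_pow, Units.inv_mul, one_pow]
      rw [h2, mul_one]

end

end Pool.Agent.DBX.DIA
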