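import Pool.Agent.DBX.DIA.Stmts

set_option autoImplicit false

/-! # DBX, area DIA, module MCL: the ring of logarithmic forms in the coordinates of one chart -/

namespace Pool.Agent.DBX.DIA

open KaehlerDifferential Pool.Agent.DBE Pool.Agent.DBX Pool.Agent.DBX.DIB Pool.Agent.DBX.DIA2

universe u

noncomputable section

namespace MCL_

variable {p : ℕ} {R : Type u} [CommRing R] [Algebra (ZMod p) R] {m N : ℕ}

theorem As_mono (X : BMod p R m N) {σ τ : Finset (Fin m)} (h : σ ⊆ τ) : X.As σ ≤ X.As τ := by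
  unfold BMod.As
  exact biSup_mono fun _ hv => h hv

/-- change of the generator of the lattice -/
theorem glue_unit (t t' : Fin N → Rˣ) (e e' : Fin N → ℕ) :
    ((∏ i, (t i : R) ^ e i) * (∏ i, (((t' i)⁻¹ : Rˣ) : R) ^ e' i)) * mon t' e' = mon t e := by
  unfold mon
  rw [mul_assoc, ← Finset.prod_mul_distrib]
  have : ∀ i : Fin N, (((t' i)⁻¹ : Rˣ) : R) ^ e' i * (t' i : R) ^ e' i = 1 := by
    intro i
    rw [← mul_pow, Units.inv_mul, one_pow]
  rw [Finset.prod_congr rfl fun i _ => this i, Finset.prod_const_one, mul_one]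

theorem one_smul' (a : R) (w : Ω[R⁄ZMod p]) :
    one (ZMod p) R (a • w) = fn (ZMod p) R a * one (ZMod p) R w := by
  rw [one, map_smul, Algebra.smul_def]

theorem M_eq (hLOG : Stmt_LOG.{u}) [Fact p.Prime] [CharP R p] (X : BMod p R m N) (hX : X.Good)
    (σ : Finset (Fin m)) (v : Fin m) (hv : v ∈ σ) : X.lat.M σ = LM (X.As σ) (X.t v) := by
  apply le_antisymm
  · unfold Lat.M
    rw [Subring.closure_le]
    rintro z (⟨a, ha, rfl⟩ | ⟨w, hw, rfl⟩)
    · exact Subring.subset_closure (Or.inl ⟨a, ha, rfl⟩)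
    · have hw' : w ∈ Submodule.span (X.As σ)
          {w : Ω[R⁄ZMod p] | ∃ v ∈ σ, ∃ i, w = lg (X.t v i)} := hw
      change one (ZMod p) R w ∈ LM (X.As σ) (X.t v)
      clear hw
      induction hw' using Submodule.span_induction with
      | mem w hw =>
        obtain ⟨v', hv', i, rfl⟩ := hw
        obtain ⟨a, ha, e⟩ := hLOG p R m N X hX σ v hv v' hv' i
        rw [e, one, map_sum]
        refine sum_mem fun j _ => ?_
        have := one_smul' (p := p) (a j) (lg (X.t v j))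
        rw [one] at this
        rw [this]
        exact mul_mem (Subring.subset_closure (Or.inl ⟨a j, ha j, rfl⟩))
          (Subring.subset_closure (Or.inr ⟨j, rfl⟩))
      | zero => rw [one, map_zero]; exact zero_mem _
      | add x y _ _ h1 h2 => rw [one, map_add]; exact add_mem h1 h2
      | smul a x _ h1 =>
        rw [Subalgebra.smul_def, one_smul']
        exact mul_mem (Subring.subset_closure (Or.inl ⟨(a : R), a.2, rfl⟩)) h1
  · unfold LM
    rw [Subring.closure_le]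
    rintro z (⟨a, ha, rfl⟩ | ⟨i, rfl⟩)
    · exact Subring.subset_closure (Or.inl ⟨a, ha, rfl⟩)
    · exact Subring.subset_closure (Or.inr ⟨lg (X.t v i), Submodule.subset_span ⟨v, hv, i, rfl⟩,
        rfl⟩)

theorem glue' (X : BMod p R m N) (hX : X.Good) (σ : Finset (Fin m)) (v w : Fin m) (hv : v ∈ σ)
    (hw : w ∈ σ) (e : Fin m → Fin N → ℕ) (he : e = X.c ∨ e = X.c') :
    ∃ a ∈ X.As σ, mon (X.t v) (e v) = a * mon (X.t w) (e w) := by
  have hle : X.As {v, w} ≤ X.As σ := by
    apply As_mono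
    intro z hz
    rcases Finset.mem_insert.1 hz with h | h
    · rw [h]; exact hv
    · rw [Finset.mem_singleton.1 h]; exact hw
  refine ⟨(∏ i, (X.t v i : R) ^ e v i) * (∏ i, (((X.t w i)⁻¹ : Rˣ) : R) ^ e w i), ?_,
    (glue_unit _ _ _ _).symm⟩
  rcases he with rfl | rfl
  · exact hle (hX.c_glue v w)
  · exact hle (hX.c'_glue v w)

end MCL_

theorem mcl_proof (hLOG : Stmt_LOG.{u}) : Stmt_MCL.{u} := by
  intro p _ R _ _ _ m N X hX σ v hv
  have hM := MCL_.M_eq hLOG X hX σ v hv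
  refine ⟨hM, ?_⟩
  intro e he x
  have hs : σ.Nonempty := ⟨v, hv⟩
  have hT : X.T e σ = mon (X.t (σ.min' hs)) (e (σ.min' hs)) := by
    unfold BMod.T
    rw [dif_pos hs]
  have hu := σ.min'_mem hs
  have hfn : ∀ a ∈ X.As σ, fn (ZMod p) R a ∈ LM (X.As σ) (X.t v) := fun a ha =>
    Subring.subset_closure (Or.inl ⟨a, ha, rfl⟩)
  constructor
  · rintro ⟨y, hy, rfl⟩
    have hy' : y ∈ LM (X.As σ) (X.t v) := by rw [← hM]; exact hy
    obtain ⟨a, ha, e1⟩ := MCL_.glue' X hX σ _ v hu hv e he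
    refine ⟨fn (ZMod p) R a * y, mul_mem (hfn a ha) hy', ?_⟩
    change fn (ZMod p) R (X.T e σ) * y = _
    rw [hT, e1, mul_comm a, map_mul, mul_assoc]
  · rintro ⟨y, hy, rfl⟩
    obtain ⟨a, ha, e1⟩ := MCL_.glue' X hX σ v _ hv hu e he
    refine ⟨fn (ZMod p) R a * y, ?_, ?_⟩
    · change fn (ZMod p) R a * y ∈ X.lat.M σ
      rw [hM]
      exact mul_mem (hfn a ha) hy
    · change fn (ZMod p) R (X.T e σ) * (fn (ZMod p) R a * y) = _
      rw [hT, e1, mul_comm a, map_mul, mul_assoc]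

end

end Pool.Agent.DBX.DIA
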