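import Pool.Agent.DBX.DIA.Stmts

set_option autoImplicit false

namespace Pool.Agent.DBX.DIA

open KaehlerDifferential Pool.Agent.DBE Pool.Agent.DBX Pool.Agent.DBX.DIB Pool.Agent.DBX.DIA2

universe u

theorem nil_proof (hDIF : DIA2.Stmt_DIF.{u}) : Stmt_NIL.{u} := by
  intro p _ N R _ _ A t hch hN w
  obtain ⟨θ, hθ⟩ := hDIF p N R A t hch
  have hli : LinearIndependent R (fun i => lg (p := p) (t i)) := by
    rw [Fintype.linearIndependent_iff]
    intro a ha i
    exact congrFun (hθ.indep a ha) i
  have hsp : ⊤ ≤ Submodule.span R (Set.range (fun i => lg (p := p) (t i))) := by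
    rw [← KaehlerDifferential.span_range_derivation (ZMod p) R, Submodule.span_le]
    rintro _ ⟨a, rfl⟩
    rw [SetLike.mem_coe, hθ.D_eq a]
    exact Submodule.sum_mem _ fun i _ => Submodule.smul_mem _ _ (Submodule.subset_span ⟨i, rfl⟩)
  let b := Module.Basis.mk hli hsp
  have h : ExteriorAlgebra.ιMulti R p (M := Ω[R⁄ZMod p]) = 0 := by
    refine Module.Basis.ext_alternating b fun v hv => ?_
    exact absurd (Fintype.card_le_of_injective v hv) (by simpa using hN)
  rw [h]
  rfl

end Pool.Agent.DBX.DIA
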