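import Pool.Agent.DBX.DIA.Stmts

/-!
# DBX, area DIA, module RAS: images of the coordinate rings modulo `p`
-/

set_option autoImplicit false

namespace Pool.Agent.DBX.DIA

open KaehlerDifferential Pool.Agent.DBE Pool.Agent.DBX Pool.Agent.DBX.DIB Pool.Agent.DBX.DIA2

universe u

noncomputable section

namespace RAS_

variable {p : ℕ} [Fact p.Prime] {Q R : Type u} [CommRing Q] [CommRing R] [Algebra (ZMod (p ^ 2)) Q]
  [Algebra (ZMod p) R]

instance ne2 : NeZero (p ^ 2) := ⟨pow_ne_zero 2 (Fact.out (p := p.Prime)).ne_zero⟩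

/-- an element of the base ring is a natural number in the algebra -/
theorem base1 (r : ZMod p) : ∃ n : ℕ, algebraMap (ZMod p) R r = (n : R) :=
  ⟨r.val, by rw [← map_natCast (algebraMap (ZMod p) R), ZMod.natCast_zmod_val]⟩

theorem base2 (r : ZMod (p ^ 2)) : ∃ n : ℕ, algebraMap (ZMod (p ^ 2)) Q r = (n : Q) :=
  ⟨r.val, by rw [← map_natCast (algebraMap (ZMod (p ^ 2)) Q), ZMod.natCast_zmod_val]⟩

/-- image of a subalgebra -/
def img (π : Q →+* R) (A : Subalgebra (ZMod (p ^ 2)) Q) : Subalgebra (ZMod p) R where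
  carrier := {x | ∃ y ∈ A, π y = x}
  mul_mem' := by
    rintro x x' ⟨y, hy, rfl⟩ ⟨y', hy', rfl⟩
    exact ⟨y * y', mul_mem hy hy', map_mul _ _ _⟩
  add_mem' := by
    rintro x x' ⟨y, hy, rfl⟩ ⟨y', hy', rfl⟩
    exact ⟨y + y', add_mem hy hy', map_add _ _ _⟩
  algebraMap_mem' := by
    intro r
    obtain ⟨n, hn⟩ := base1 (R := R) r
    exact ⟨(n : Q), natCast_mem A n, by rw [hn, map_natCast]⟩

/-- preimage of a subalgebra -/
def pre (π : Q →+* R) (B : Subalgebra (ZMod p) R) : Subalgebra (ZMod (p ^ 2)) Q where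
  carrier := {y | π y ∈ B}
  mul_mem' := by
    intro x x' hx hx'
    change π (x * x') ∈ B
    rw [map_mul]
    exact mul_mem hx hx'
  add_mem' := by
    intro x x' hx hx'
    change π (x + x') ∈ B
    rw [map_add]
    exact add_mem hx hx'
  algebraMap_mem' := by
    intro r
    obtain ⟨n, hn⟩ := base2 (Q := Q) r
    change π _ ∈ B
    rw [hn, map_natCast]
    exact natCast_mem B n

end RAS_

open RAS_ in
theorem ras_proof : Stmt_RAS.{u} := by
  intro p hp Q R _ _ _ _ m N Y π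
  have h1 : ∀ v x, x ∈ (red Y π).A v ↔ ∃ y ∈ Y.A v, π y = x := by
    intro v x
    constructor
    · intro hx
      have h2 : (red Y π).A v ≤ img π (Y.A v) := by
        refine Algebra.adjoin_le ?_
        rintro _ ⟨y, hy, rfl⟩
        exact ⟨y, hy, rfl⟩
      exact h2 hx
    · rintro ⟨y, hy, rfl⟩
      exact Algebra.subset_adjoin ⟨y, hy, rfl⟩
  refine ⟨h1, fun σ x => ⟨fun hx => ?_, ?_⟩⟩
  · have h2 : (red Y π).As σ ≤ img π (Y.As σ) := by
      refine iSup₂_le fun v hv x hx => ?_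
      obtain ⟨y, hy, rfl⟩ := (h1 v x).1 hx
      have h3 : Y.A v ≤ Y.As σ := le_iSup₂ (f := fun v (_ : v ∈ σ) => Y.A v) v hv
      exact ⟨y, h3 hy, rfl⟩
    exact h2 hx
  · rintro ⟨y, hy, rfl⟩
    have h2 : Y.As σ ≤ pre π ((red Y π).As σ) := by
      refine iSup₂_le fun v hv y hy => ?_
      have h3 : (red Y π).A v ≤ (red Y π).As σ :=
        le_iSup₂ (f := fun v (_ : v ∈ σ) => (red Y π).A v) v hv
      exact h3 ((h1 v _).2 ⟨y, hy, rfl⟩)
    exact h2 hy

end

end Pool.Agent.DBX.DIA
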