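import Pool.Agent.DBX.DIA.Stmts

/-!
# DBX, area DIA, module TNZ: different coordinates form regular sequences.
-/

set_option autoImplicit false

namespace Pool.Agent.DBX.DIA

open KaehlerDifferential Pool.Agent.DBE Pool.Agent.DBX Pool.Agent.DBX.DIB Pool.Agent.DBX.DIA2

universe u

namespace TNZ_

theorem not_X_dvd {N p : ℕ} [Fact p.Prime] (j : Fin N) (a : Fin N → ℕ) (ha : a j = 0) :
    ¬ (MvPolynomial.X j : MvPolynomial (Fin N) (ZMod p)) ∣ ∏ i, MvPolynomial.X i ^ a i := by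
  intro h
  have hp : Prime (MvPolynomial.X j : MvPolynomial (Fin N) (ZMod p)) := MvPolynomial.X_prime
  obtain ⟨i, -, hi⟩ := (Prime.dvd_finset_prod_iff hp _).mp h
  by_cases hij : i = j
  · subst hij
    rw [ha, pow_zero] at hi
    exact hp.not_isUnit (isUnit_of_dvd_one hi)
  · have h1 := hp.dvd_of_dvd_pow hi
    rw [MvPolynomial.X_dvd_X] at h1
    exact hij h1.symm

end TNZ_

theorem tnz_proof : Stmt_TNZ.{u} := by
  intro p _ N R _ _ A t hC j a b haj x hx y hy hxy
  let φ : MvPolynomial (Fin N) (ZMod p) →+* A :=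
    (MvPolynomial.aeval (R := ZMod p)
      (fun i => (⟨(t i : R), hC.t_mem i⟩ : A))).toRingHom
  letI : Algebra (MvPolynomial (Fin N) (ZMod p)) A := φ.toAlgebra
  have hφX : ∀ i, φ (MvPolynomial.X i) = (⟨(t i : R), hC.t_mem i⟩ : A) := by
    intro i
    exact MvPolynomial.aeval_X _ i
  have het : φ.Etale := hC.etale
  have hfl : φ.Flat := (RingHom.Etale.iff_flat_and_formallyUnramified.mp het).1
  haveI : Module.Flat (MvPolynomial (Fin N) (ZMod p)) A := hfl
  have hsmul : ∀ (q : MvPolynomial (Fin N) (ZMod p)) (z : A), q • z = φ q * z := by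
    intro q z
    rfl
  have hrel : ∑ k : Fin 2, (![∏ i, MvPolynomial.X i ^ a i, - MvPolynomial.X j ^ b] :
      Fin 2 → MvPolynomial (Fin N) (ZMod p)) k • (![⟨x, hx⟩, ⟨y, hy⟩] : Fin 2 → A) k = 0 := by
    rw [Fin.sum_univ_two]
    simp only [Matrix.cons_val_zero, Matrix.cons_val_one, hsmul, map_prod, map_pow, map_neg, hφX]
    apply Subtype.ext
    have h1 : ((∏ i, (⟨(t i : R), hC.t_mem i⟩ : A) ^ a i : A) : R) = mon t a := by
      simp [mon]
    simp only [Subalgebra.coe_add, Subalgebra.coe_mul, h1, Subalgebra.coe_neg,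
      Subalgebra.coe_pow, Subalgebra.coe_zero]
    rw [mul_comm (mon t a), hxy]
    ring
  obtain ⟨κ, c, z, hz, hc⟩ := Module.Flat.isTrivialRelation_of_sum_smul_eq_zero
    (R := MvPolynomial (Fin N) (ZMod p)) (M := A) hrel
  have hdvd : ∀ l, (MvPolynomial.X j : MvPolynomial (Fin N) (ZMod p)) ^ b ∣ c 0 l := by
    intro l
    have h1 := hc l
    rw [Fin.sum_univ_two] at h1
    simp only [Matrix.cons_val_zero, Matrix.cons_val_one] at h1
    have h2 : (∏ i, MvPolynomial.X i ^ a i : MvPolynomial (Fin N) (ZMod p)) * c 0 l =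
        MvPolynomial.X j ^ b * c 1 l := by linear_combination h1
    exact (MvPolynomial.X_prime).pow_dvd_of_dvd_mul_left b (TNZ_.not_X_dvd j a haj)
      ⟨c 1 l, h2⟩
  choose d hd using hdvd
  have hx0 := hz 0
  simp only [Matrix.cons_val_zero] at hx0
  refine ⟨((∑ l, φ (d l) * z l : A) : R), (∑ l, φ (d l) * z l : A).2, ?_⟩
  have h3 : (⟨x, hx⟩ : A) = (⟨(t j : R), hC.t_mem j⟩ : A) ^ b * ∑ l, φ (d l) * z l := by
    rw [hx0, Finset.mul_sum]
    refine Finset.sum_congr rfl fun l _ => ?_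
    rw [hsmul, hd l, map_mul, map_pow, hφX, mul_assoc]
  have h4 := congrArg (fun w : A => (w : R)) h3
  simpa using h4

end Pool.Agent.DBX.DIA
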