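import Pool.Agent.DBX.DIA.Stmts
import Pool.Agent.DBX.DIA.TNZ

/-!
# DBX, area DIA, module RDU: the divisor `∏ t_i ^ c_i`, `c_i ≤ 1`, is reduced.
-/

set_option autoImplicit false

namespace Pool.Agent.DBX.DIA

open KaehlerDifferential Pool.Agent.DBE Pool.Agent.DBX Pool.Agent.DBX.DIB Pool.Agent.DBX.DIA2

universe u

namespace RDU_

/-- the shift of one exponent modulo `p` -/
def sh {N p : ℕ} [NeZero p] (j : Fin N) : (Fin N → Fin p) ≃ (Fin N → Fin p) where
  toFun g := g + Pi.single j 1
  invFun g := g - Pi.single j 1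
  left_inv g := by simp
  right_inv g := by simp

theorem mul_mon {N p : ℕ} [NeZero p] (hp : 1 < p) {A : Type*} [CommRing A] (t : Fin N → A)
    (j : Fin N) (g : Fin N → Fin p) :
    t j * ∏ i, t i ^ (g i : ℕ) =
      (if (g j : ℕ) = p - 1 then t j else 1) ^ p * ∏ i, t i ^ (sh j g i : ℕ) := by
  classical
  rw [← Finset.mul_prod_erase Finset.univ _ (Finset.mem_univ j),
    ← Finset.mul_prod_erase Finset.univ (fun i => t i ^ (sh j g i : ℕ)) (Finset.mem_univ j)]
  have h1 : ∏ i ∈ Finset.univ.erase j, t i ^ (sh j g i : ℕ) =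
      ∏ i ∈ Finset.univ.erase j, t i ^ (g i : ℕ) := by
    refine Finset.prod_congr rfl fun i hi => ?_
    have hij : i ≠ j := (Finset.mem_erase.mp hi).1
    simp [sh, Pi.single_apply, hij]
  rw [h1, ← mul_assoc, ← mul_assoc]
  congr 1
  have h2 : sh j g j = g j + 1 := by simp [sh]
  have h3 : ((1 : Fin p) : ℕ) = 1 := by
    rw [Fin.val_one', Nat.mod_eq_of_lt hp]
  by_cases hg : (g j : ℕ) = p - 1
  · rw [if_pos hg, h2, Fin.val_add, h3, hg, Nat.sub_add_cancel hp.le, Nat.mod_self, pow_zero,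
      mul_one, ← pow_succ', Nat.sub_add_cancel hp.le]
  · have hlt : (g j : ℕ) + 1 < p := by
      have := (g j).2
      omega
    rw [if_neg hg, h2, Fin.val_add, h3, Nat.mod_eq_of_lt hlt, one_pow, one_mul, pow_succ']

theorem single (hPBG : Pool.Agent.DBX.DIA2.Stmt_PBG.{u})
    (hPBI : Pool.Agent.DBX.DIA2.Stmt_PBI.{u}) (p : ℕ) [Fact p.Prime] (N : ℕ) (A : Type u)
    [CommRing A] [Algebra (ZMod p) A] [CharP A p] (t : Fin N → A)
    (het : (MvPolynomial.aeval (R := ZMod p) t).toRingHom.Etale) (j : Fin N) (x y : A)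
    (h : x ^ 2 = t j * y) : ∃ z, x = t j * z := by
  classical
  have hp : p.Prime := Fact.out
  have h2 : 2 ≤ p := hp.two_le
  obtain ⟨b, hb⟩ := hPBG p N A t het (y * x ^ (p - 2))
  have hx : x ^ p = t j * (y * x ^ (p - 2)) := by
    rw [← mul_assoc, ← h, ← pow_add]
    congr 1
    omega
  rw [hb, Finset.mul_sum] at hx
  let β : (Fin N → Fin p) → A := fun g =>
    b ((sh j).symm g) * (if (((sh j).symm g) j : ℕ) = p - 1 then t j else 1)
  have h3 : ∑ g, t j * (b g ^ p * ∏ i, t i ^ (g i : ℕ)) = ∑ g, β g ^ p * ∏ i, t i ^ (g i : ℕ) := by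
    rw [← Equiv.sum_comp (sh j) (fun g => β g ^ p * ∏ i, t i ^ (g i : ℕ))]
    refine Finset.sum_congr rfl fun g _ => ?_
    simp only [β, Equiv.symm_apply_apply]
    rw [mul_pow, mul_assoc, ← mul_mon (p := p) (by omega) t j g]
    ring
  rw [h3] at hx
  have h4 : x ^ p = ∑ g : Fin N → Fin p, (if g = 0 then x else 0) ^ p *
      ∏ i, t i ^ (g i : ℕ) := by
    rw [Finset.sum_eq_single (0 : Fin N → Fin p)]
    · simp
    · intro g _ hg
      rw [if_neg hg, zero_pow hp.ne_zero, zero_mul]
    · intro h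
      exact absurd (Finset.mem_univ _) h
  have h5 : ∑ g : Fin N → Fin p, ((if g = 0 then x else 0) - β g) ^ p *
      ∏ i, t i ^ (g i : ℕ) = 0 := by
    have : ∀ g : Fin N → Fin p, ((if g = 0 then x else 0) - β g) ^ p *
      ∏ i, t i ^ (g i : ℕ) = (if g = 0 then x else 0) ^ p * ∏ i, t i ^ (g i : ℕ) -
        β g ^ p * ∏ i, t i ^ (g i : ℕ) := by
      intro g
      rw [sub_pow_char, sub_mul]
    rw [Finset.sum_congr rfl fun g _ => this g, Finset.sum_sub_distrib, ← h4, hx, sub_self]
  have h6 := congrFun (hPBI p N A t het _ h5) 0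
  simp only [if_true, Pi.zero_apply] at h6
  have h7 : ((((sh j).symm (0 : Fin N → Fin p)) j : Fin p) : ℕ) = p - 1 := by
    have h8 : ((sh j).symm (0 : Fin N → Fin p)) j = 0 - 1 := by simp [sh]
    rw [h8, Fin.sub_def]
    have h9 : ((1 : Fin p) : ℕ) = 1 := by
      rw [Fin.val_one', Nat.mod_eq_of_lt (by omega)]
    simp only [h9]
    rw [Fin.val_zero, Nat.add_zero, Nat.mod_eq_of_lt (by omega)]
  refine ⟨b ((sh j).symm 0), ?_⟩
  have h8 : x = β 0 := sub_eq_zero.mp h6
  rw [h8]
  simp only [β]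
  rw [if_pos h7, mul_comm]

end RDU_

theorem rdu_proof (hPBG : Pool.Agent.DBX.DIA2.Stmt_PBG.{u})
    (hPBI : Pool.Agent.DBX.DIA2.Stmt_PBI.{u}) : Stmt_RDU.{u} := by
  classical
  intro p _ N R _ _ _ A t hC c hc x hx y hy hxy
  haveI : CharP A p := RingHom.charP (A.val : A →+* R) Subtype.val_injective p
  have hmon : ∀ a : Fin N → ℕ, mon t a ∈ A := by
    intro a
    exact prod_mem fun i _ => pow_mem (hC.t_mem i) _
  -- divisibility by each coordinate
  have hone : ∀ j, c j = 1 → ∃ z ∈ A, x = (t j : R) * z := by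
    intro j hj
    have h1 : mon t c = (t j : R) * mon t (Function.update c j 0) := by
      rw [mon, mon, ← Finset.mul_prod_erase Finset.univ _ (Finset.mem_univ j),
        ← Finset.mul_prod_erase Finset.univ (fun i => (t i : R) ^ Function.update c j 0 i)
          (Finset.mem_univ j)]
      rw [hj, pow_one, Function.update_self, pow_zero, one_mul]
      congr 1
      refine Finset.prod_congr rfl fun i hi => ?_
      rw [Function.update_of_ne (Finset.mem_erase.mp hi).1]
    obtain ⟨z, hz⟩ := RDU_.single hPBG hPBI p N A (fun i => (⟨(t i : R), hC.t_mem i⟩ : A))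
      hC.etale j ⟨x, hx⟩ ⟨mon t (Function.update c j 0) * y, mul_mem (hmon _) hy⟩ (by
        apply Subtype.ext
        simp only [Subalgebra.coe_pow, Subalgebra.coe_mul]
        rw [hxy, h1]
        ring)
    refine ⟨z, z.2, ?_⟩
    have := congrArg (fun w : A => (w : R)) hz
    simpa using this
  have key : ∀ S : Finset (Fin N), (∀ i ∈ S, c i = 1) →
      ∃ z ∈ A, x = mon t (fun i => if i ∈ S then 1 else 0) * z := by
    intro S
    induction S using Finset.induction_on with
    | empty =>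
      intro _
      refine ⟨x, hx, ?_⟩
      simp [mon]
    | insert j S hjS ih =>
      intro hS
      obtain ⟨z, hz, hxz⟩ := ih fun i hi => hS i (Finset.mem_insert_of_mem hi)
      obtain ⟨w, hw, hxw⟩ := hone j (hS j (Finset.mem_insert_self _ _))
      obtain ⟨z', hz', hzz⟩ := tnz_proof p N R A t hC j (fun i => if i ∈ S then 1 else 0) 1
        (by simp [hjS]) z hz w hw (by rw [mul_comm, ← hxz, hxw, pow_one])
      refine ⟨z', hz', ?_⟩
      rw [hxz, hzz, pow_one, ← mul_assoc]
      congr 1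
      rw [mon, mon, ← Finset.mul_prod_erase Finset.univ _ (Finset.mem_univ j),
        ← Finset.mul_prod_erase Finset.univ
          (fun i => (t i : R) ^ (if i ∈ insert j S then 1 else 0)) (Finset.mem_univ j)]
      have h1 : ∏ i ∈ Finset.univ.erase j, (t i : R) ^ (if i ∈ insert j S then 1 else 0) =
          ∏ i ∈ Finset.univ.erase j, (t i : R) ^ (if i ∈ S then 1 else 0) := by
        refine Finset.prod_congr rfl fun i hi => ?_
        have hij : i ≠ j := (Finset.mem_erase.mp hi).1
        simp [hij]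
      rw [h1]
      simp [hjS]
      ring
  obtain ⟨z, hz, hxz⟩ := key (Finset.univ.filter fun i => c i = 1) (by simp)
  refine ⟨z, hz, ?_⟩
  rw [hxz]
  congr 1
  refine Finset.prod_congr rfl fun i _ => ?_
  congr 1
  have := hc i
  by_cases h : c i = 1
  · simp [h]
  · have h0 : c i = 0 := by omega
    simp [h0]

end Pool.Agent.DBX.DIA
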