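import Pool.Agent.DBX.DIA.Stmts

/-!
# DBX, area DIA, module THH: the maps `θ` and `h` attached to Frobenius lifts.
-/

set_option autoImplicit false

namespace Pool.Agent.DBX.DIA

open KaehlerDifferential Pool.Agent.DBE Pool.Agent.DBX Pool.Agent.DBX.DIB Pool.Agent.DBX.DIA2

universe u

noncomputable section

namespace THH_

section binom

variable {S : Type u} [CommRing S]

/-- `((x + y)^p - x^p - y^p) / p` -/
def P (p : ℕ) (x y : S) : S :=
  ∑ j ∈ Finset.range (p - 1), ((p.choose (j + 1) / p : ℕ) : S) * (x ^ (j + 1) * y ^ (p - 1 - j))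

theorem c_mul (q j : ℕ) (hq : (q + 1).Prime) (hj : j < q) :
    (q + 1) * ((q + 1).choose (j + 1) / (q + 1)) = (q + 1).choose (j + 1) :=
  Nat.mul_div_cancel' (hq.dvd_choose_self (Nat.succ_ne_zero j) (by omega))

theorem add_pow_P {p : ℕ} (hp : p.Prime) (x y : S) :
    (x + y) ^ p = x ^ p + y ^ p + (p : S) * P p x y := by
  obtain ⟨q, rfl⟩ : ∃ q, p = q + 1 := ⟨p - 1, (Nat.succ_pred_eq_of_pos hp.pos).symm⟩
  rw [add_pow, Finset.sum_range_succ, Finset.sum_range_succ', P, Finset.mul_sum]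
  simp only [Nat.add_sub_cancel, pow_zero, one_mul, Nat.choose_zero_right, Nat.cast_one, mul_one,
    Nat.choose_self, Nat.sub_self, Nat.sub_zero]
  have : ∑ k ∈ Finset.range q, x ^ (k + 1) * y ^ (q + 1 - (k + 1)) *
      (((q + 1).choose (k + 1) : ℕ) : S) = ∑ k ∈ Finset.range q, ((q + 1 : ℕ) : S) *
        ((((q + 1).choose (k + 1) / (q + 1) : ℕ) : S) * (x ^ (k + 1) * y ^ (q - k))) := by
    refine Finset.sum_congr rfl (fun k hk => ?_)
    rw [← c_mul q k hp (Finset.mem_range.mp hk), Nat.cast_mul, Nat.add_sub_add_right]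
    have h := c_mul q k hp (Finset.mem_range.mp hk)
    rw [h]
    ring
  rw [this]
  ring

theorem map_P {p : ℕ} {S' : Type u} [CommRing S'] (f : S →+* S') (x y : S) :
    f (P p x y) = P p (f x) (f y) := by
  unfold P
  rw [map_sum]
  refine Finset.sum_congr rfl (fun j _ => ?_)
  rw [map_mul, map_mul, map_pow, map_pow, map_natCast]

theorem D_P {p : ℕ} (hp : p.Prime) {B : Type} [CommRing B] [Algebra B S] {M : Type u}
    [AddCommGroup M] [Module S M] [Module B M] (d : Derivation B S M) (x y : S) :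
    d (P p x y) = (x + y) ^ (p - 1) • (d x + d y) - x ^ (p - 1) • d x - y ^ (p - 1) • d y := by
  obtain ⟨q, rfl⟩ : ∃ q, p = q + 1 := ⟨p - 1, (Nat.succ_pred_eq_of_pos hp.pos).symm⟩
  unfold P
  simp only [Nat.add_sub_cancel]
  rw [map_sum]
  have h1 : ∀ j ∈ Finset.range q, d ((((q + 1).choose (j + 1) / (q + 1) : ℕ) : S) *
      (x ^ (j + 1) * y ^ (q - j))) = (x ^ j * y ^ (q - j) * ((q.choose j : ℕ) : S)) • d x +
        (x ^ (j + 1) * y ^ (q - (j + 1)) * ((q.choose (j + 1) : ℕ) : S)) • d y := by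
    intro j hj
    have hj' := Finset.mem_range.mp hj
    have hc := c_mul q j hp hj'
    set c := (q + 1).choose (j + 1) / (q + 1) with hcdef
    have e1 : c * (j + 1) = q.choose j := by
      have h := Nat.add_one_mul_choose_eq q j
      have h2 : (q + 1) * q.choose j = (q + 1) * (c * (j + 1)) := by
        rw [← mul_assoc, hc]
        exact h
      exact (Nat.eq_of_mul_eq_mul_left (Nat.succ_pos q) h2).symm
    have e2 : c * (q - j) = q.choose (j + 1) := by
      have h := Nat.choose_mul_succ_eq q (j + 1)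
      have h2 : (q + 1) * q.choose (j + 1) = (q + 1) * (c * (q - j)) := by
        rw [← mul_assoc, hc, mul_comm (q + 1) (q.choose (j + 1))]
        rw [Nat.add_sub_add_right] at h
        exact h
      exact (Nat.eq_of_mul_eq_mul_left (Nat.succ_pos q) h2).symm
    rw [Derivation.leibniz, Derivation.leibniz, Derivation.map_natCast, smul_zero, add_zero,
      Derivation.leibniz_pow, Derivation.leibniz_pow, Nat.add_sub_cancel, ← e1, ← e2,
      ← Nat.cast_smul_eq_nsmul S, ← Nat.cast_smul_eq_nsmul S]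
    simp only [smul_add, smul_smul]
    rw [add_comm]
    congr 2
    · push_cast
      ring
    · rw [Nat.sub_sub]
      push_cast
      ring
  rw [Finset.sum_congr rfl h1, Finset.sum_add_distrib, ← Finset.sum_smul, ← Finset.sum_smul]
  have e1 : ∑ j ∈ Finset.range q, x ^ j * y ^ (q - j) * ((q.choose j : ℕ) : S) =
      (x + y) ^ q - x ^ q := by
    rw [add_pow, Finset.sum_range_succ]
    simp
  have e2 : ∑ j ∈ Finset.range q, x ^ (j + 1) * y ^ (q - (j + 1)) *
      ((q.choose (j + 1) : ℕ) : S) = (x + y) ^ q - y ^ q := by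
    rw [add_pow, Finset.sum_range_succ']
    simp
  rw [e1, e2, sub_smul, sub_smul, smul_add]
  abel

end binom

section

variable {p : ℕ} [Fact p.Prime] {Q R : Type u} [CommRing Q] [CommRing R] [Algebra (ZMod p) R]
  [CharP R p] {π : Q →+* R}

theorem D_pow_char (a : R) : D (ZMod p) R (a ^ p) = 0 := by
  rw [Derivation.leibniz_pow, ← Nat.cast_smul_eq_nsmul R, CharP.cast_eq_zero, zero_smul]

theorem D_pow_mul (a x : R) : D (ZMod p) R (a ^ p * x) = a ^ p • D (ZMod p) R x := by
  rw [Derivation.leibniz, D_pow_char, smul_zero, add_zero]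

omit [Fact p.Prime] in
theorem add_p_pow (hp2 : (p : Q) ^ 2 = 0) (x z : Q) : (x + (p : Q) * z) ^ p = x ^ p := by
  obtain ⟨k, hk⟩ := Polynomial.powAddExpansion x ((p : Q) * z) p
  rw [hk]
  have e1 : (p : Q) * x ^ (p - 1) * ((p : Q) * z) = (p : Q) ^ 2 * (x ^ (p - 1) * z) := by ring
  have e2 : k * ((p : Q) * z) ^ 2 = (p : Q) ^ 2 * (k * z ^ 2) := by ring
  rw [e1, e2, hp2]
  ring

omit [Fact p.Prime] in
theorem phi_add_p (hp2 : (p : Q) ^ 2 = 0) {φ : Q →+* Q}
    (hφ : ∀ x, ∃ y, φ x = x ^ p + (p : Q) * y) (x z : Q) :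
    φ (x + (p : Q) * z) = φ x + (p : Q) * z ^ p := by
  obtain ⟨y, hy⟩ := hφ z
  rw [map_add, map_mul, map_natCast, hy]
  have : (p : Q) * (z ^ p + (p : Q) * y) = (p : Q) * z ^ p + (p : Q) ^ 2 * y := by ring
  rw [this, hp2]
  ring

omit [Fact p.Prime] [Algebra (ZMod p) R] [CharP R p] in
theorem pi_eq (hπ : Red p π) (hflat : ∀ x : Q, (p : Q) * x = 0 → ∃ y, x = (p : Q) * y) {a b : Q}
    (h : (p : Q) * a = (p : Q) * b) : π a = π b := by
  have h1 : (p : Q) * (a - b) = 0 := by rw [mul_sub, h, sub_self]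
  have h2 := (hπ.ker (a - b)).mpr (hflat _ h1)
  rwa [map_sub, sub_eq_zero] at h2

omit [Fact p.Prime] [Algebra (ZMod p) R] [CharP R p] in
theorem ex_add (hπ : Red p π) {x x' : Q} (h : π x = π x') : ∃ z, x' = x + (p : Q) * z := by
  obtain ⟨z, hz⟩ := (hπ.ker (x' - x)).mp (by rw [map_sub, h, sub_self])
  exact ⟨z, by rw [← hz]; ring⟩

omit [Fact (Nat.Prime p)] [Algebra (ZMod p) R] [CharP R p] in
theorem wd0 (hπ : Red p π) (hp2 : (p : Q) ^ 2 = 0)
    (hflat : ∀ x : Q, (p : Q) * x = 0 → ∃ y, x = (p : Q) * y) {φ : Q →+* Q}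
    (hφ : ∀ x, ∃ y, φ x = x ^ p + (p : Q) * y) {x x' y y' z : Q} (hx' : x' = x + (p : Q) * z)
    (h : φ x = x ^ p + (p : Q) * y) (h' : φ x' = x' ^ p + (p : Q) * y') :
    π y' = π y + π z ^ p := by
  rw [hx', phi_add_p hp2 hφ, add_p_pow hp2, h] at h'
  have h1 : (p : Q) * y' = (p : Q) * (y + z ^ p) := by
    have := add_left_cancel (a := x ^ p) (b := (p : Q) * y + (p : Q) * z ^ p)
      (c := (p : Q) * y') (by rw [← add_assoc]; exact h')
    rw [← this]; ring
  have h2 := pi_eq hπ hflat h1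
  rwa [map_add, map_pow] at h2

theorem wd (hπ : Red p π) (hp2 : (p : Q) ^ 2 = 0)
    (hflat : ∀ x : Q, (p : Q) * x = 0 → ∃ y, x = (p : Q) * y) {φ : Q →+* Q}
    (hφ : ∀ x, ∃ y, φ x = x ^ p + (p : Q) * y) {x x' y y' : Q} (hx : π x = π x')
    (h : φ x = x ^ p + (p : Q) * y) (h' : φ x' = x' ^ p + (p : Q) * y') :
    D (ZMod p) R (π y) = D (ZMod p) R (π y') := by
  obtain ⟨z, hz⟩ := ex_add hπ hx
  rw [wd0 hπ hp2 hflat hφ hz h h', map_add, D_pow_char, add_zero]

omit [CharP R p] in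
/-- induction for one-forms -/
theorem ind {Pr : Ω[R⁄ZMod p] → Prop} (h0 : Pr 0) (hD : ∀ a, Pr (D (ZMod p) R a))
    (ha : ∀ w w', Pr w → Pr w' → Pr (w + w')) (hs : ∀ (a : R) w, Pr w → Pr (a • w))
    (w : Ω[R⁄ZMod p]) : Pr w := by
  have hw : w ∈ Submodule.span R (Set.range (D (ZMod p) R)) := by
    rw [KaehlerDifferential.span_range_derivation]; exact Submodule.mem_top
  induction hw using Submodule.span_induction with
  | mem z hz => obtain ⟨a, rfl⟩ := hz; exact hD a
  | zero => exact h0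
  | add z z' _ _ h1 h2 => exact ha _ _ h1 h2
  | smul c z _ h1 => exact hs _ _ h1

omit [CharP R p] in
theorem closed1 (a b : R) :
    dR (ZMod p) R (one (ZMod p) R (a ^ (p - 1) • D (ZMod p) R a + D (ZMod p) R b)) = 0 := by
  have e1 : one (ZMod p) R (a ^ (p - 1) • D (ZMod p) R a + D (ZMod p) R b) =
      fn (ZMod p) R (a ^ (p - 1)) * Pool.Agent.DBE.dd (ZMod p) R a +
        Pool.Agent.DBE.dd (ZMod p) R b := by
    rw [one, map_add, map_smul, Algebra.smul_def]
    rfl
  rw [e1, map_add, dR_fn_mul, dR_dd, dR_dd, mul_zero, add_zero, add_zero, dd_pow, mul_assoc,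
    mul_assoc, dd_sq, mul_zero, mul_zero]

theorem closed (Θ : Ω[R⁄ZMod p] →+ Ω[R⁄ZMod p]) (h : ∀ (a : R) w, Θ (a • w) = a ^ p • Θ w)
    (h1 : ∀ a, ∃ b, Θ (D (ZMod p) R a) = a ^ (p - 1) • D (ZMod p) R a + D (ZMod p) R b)
    (w : Ω[R⁄ZMod p]) : dR (ZMod p) R (one (ZMod p) R (Θ w)) = 0 := by
  induction w using ind with
  | h0 => rw [map_zero, one, map_zero, map_zero]
  | hD a => obtain ⟨b, hb⟩ := h1 a; rw [hb]; exact closed1 a b
  | ha w w' h2 h3 => rw [map_add, one, map_add, map_add, h2, h3, add_zero]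
  | hs a w h2 => rw [h, one, map_smul, Algebra.smul_def, dR_pow_mul, h2, mul_zero]

end

end THH_

open THH_ in
theorem thh_proof (hKSL : Stmt_KSL.{u}) : Stmt_THH.{u} := by
  intro p _ V Q R _ _ _ _ π hπ hp2 hflat φ hφ
  have hp : p.Prime := Fact.out
  choose lift hlift using hπ.surj
  choose yy hyy using hφ
  -- derivations
  let δf : V → R → Ω[R⁄ZMod p] := fun v r =>
    r ^ (p - 1) • D (ZMod p) R r + D (ZMod p) R (π (yy v (lift r)))
  have hδ : ∀ v x y, φ v x = x ^ p + (p : Q) * y →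
      δf v (π x) = (π x) ^ (p - 1) • D (ZMod p) R (π x) + D (ZMod p) R (π y) := by
    intro v x y h
    change _ + _ = _
    rw [wd hπ hp2 hflat (hφ := fun x => ⟨yy v x, hyy v x⟩) (hlift (π x)) (hyy v _) h]
  have hadd : ∀ v r s, δf v (r + s) = δf v r + δf v s := by
    intro v r s
    obtain ⟨x, rfl⟩ := hπ.surj r
    obtain ⟨x', rfl⟩ := hπ.surj s
    have h1 : φ v (x + x') = (x + x') ^ p + (p : Q) * (yy v x + yy v x' - P p x x') := by
      rw [map_add, hyy v x, hyy v x', add_pow_P hp]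
      ring
    rw [← map_add, hδ v _ _ h1, hδ v _ _ (hyy v x), hδ v _ _ (hyy v x')]
    simp only [map_add, map_sub]
    rw [map_P, D_P hp]
    abel
  have hleib : ∀ v r s, δf v (r * s) = r ^ p • δf v s + s ^ p • δf v r := by
    intro v r s
    obtain ⟨x, rfl⟩ := hπ.surj r
    obtain ⟨x', rfl⟩ := hπ.surj s
    have h1 : φ v (x * x') = (x * x') ^ p + (p : Q) * (x ^ p * yy v x' + x' ^ p * yy v x) := by
      rw [map_mul, hyy v x, hyy v x']
      have : (x ^ p + (p : Q) * yy v x) * (x' ^ p + (p : Q) * yy v x') =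
          (x * x') ^ p + (p : Q) * (x ^ p * yy v x' + x' ^ p * yy v x) +
            (p : Q) ^ 2 * (yy v x * yy v x') := by ring
      rw [this, hp2]
      ring
    rw [← map_mul, hδ v _ _ h1, hδ v _ _ (hyy v x), hδ v _ _ (hyy v x')]
    simp only [map_add, map_mul, map_pow]
    rw [D_pow_mul, D_pow_mul, Derivation.leibniz]
    simp only [smul_add, smul_smul]
    have hpp : ∀ a : R, a ^ p = a ^ (p - 1) * a := by
      intro a
      rw [← pow_succ, Nat.sub_add_cancel hp.pos]
    have e1 : (π x * π x') ^ (p - 1) * π x = π x ^ p * π x' ^ (p - 1) := by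
      rw [hpp (π x)]; ring
    have e2 : (π x * π x') ^ (p - 1) * π x' = π x' ^ p * π x ^ (p - 1) := by
      rw [hpp (π x')]; ring
    rw [e1, e2]
    abel
  let δ : V → R →+ Ω[R⁄ZMod p] := fun v => AddMonoidHom.mk' (δf v) (hadd v)
  choose Θ hΘ1 hΘ2 using fun v => hKSL p R (Ω[R⁄ZMod p]) (δ v) (hleib v)
  -- functions
  let hf : V → V → R → R := fun v w r => π (yy w (lift r)) - π (yy v (lift r))
  have hh : ∀ v w x y, φ w x = φ v x + (p : Q) * y → hf v w (π x) = π y := by
    intro v w x y h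
    obtain ⟨z, hz⟩ := ex_add hπ (hlift (π x))
    have ev := wd0 hπ hp2 hflat (fun x => ⟨yy v x, hyy v x⟩) hz (hyy v _) (hyy v x)
    have ew := wd0 hπ hp2 hflat (fun x => ⟨yy w x, hyy w x⟩) hz (hyy w _) (hyy w x)
    have e3 : (p : Q) * (yy w x) = (p : Q) * (yy v x + y) := by
      rw [hyy w x, hyy v x, add_assoc] at h
      rw [add_left_cancel h]
      ring
    have e4 := pi_eq hπ hflat e3
    rw [map_add] at e4
    change π (yy w (lift (π x))) - π (yy v (lift (π x))) = π y
    have e5 : π (yy w (lift (π x))) = π (yy w x) - π z ^ p := by rw [ew]; ring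
    have e6 : π (yy v (lift (π x))) = π (yy v x) - π z ^ p := by rw [ev]; ring
    rw [e5, e6, e4]
    ring
  have hdiff : ∀ v w x, φ w x = φ v x + (p : Q) * (yy w x - yy v x) := by
    intro v w x
    rw [hyy w x, hyy v x]
    ring
  have hhadd : ∀ v w r s, hf v w (r + s) = hf v w r + hf v w s := by
    intro v w r s
    obtain ⟨x, rfl⟩ := hπ.surj r
    obtain ⟨x', rfl⟩ := hπ.surj s
    have h1 : φ w (x + x') = φ v (x + x') +
        (p : Q) * ((yy w x - yy v x) + (yy w x' - yy v x')) := by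
      rw [map_add, hdiff v w x, hdiff v w x', map_add]
      ring
    rw [← map_add, hh v w _ _ h1, hh v w _ _ (hdiff v w x), hh v w _ _ (hdiff v w x'), map_add]
  have hpiphi : ∀ v x, π (φ v x) = π x ^ p := by
    intro v x
    rw [hyy v x, map_add, map_pow, (hπ.ker ((p : Q) * yy v x)).mpr ⟨_, rfl⟩, add_zero]
  have hhleib : ∀ v w r s, hf v w (r * s) = r ^ p • hf v w s + s ^ p • hf v w r := by
    intro v w r s
    obtain ⟨x, rfl⟩ := hπ.surj r
    obtain ⟨x', rfl⟩ := hπ.surj s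
    have h1 : φ w (x * x') = φ v (x * x') +
        (p : Q) * (φ v x * (yy w x' - yy v x') + φ v x' * (yy w x - yy v x)) := by
      rw [map_mul, hdiff v w x, hdiff v w x', map_mul]
      have : (φ v x + (p : Q) * (yy w x - yy v x)) * (φ v x' + (p : Q) * (yy w x' - yy v x')) =
          φ v x * φ v x' +
            (p : Q) * (φ v x * (yy w x' - yy v x') + φ v x' * (yy w x - yy v x)) +
            (p : Q) ^ 2 * ((yy w x - yy v x) * (yy w x' - yy v x')) := by ring
      rw [this, hp2]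
      ring
    rw [← map_mul, hh v w _ _ h1, hh v w _ _ (hdiff v w x), hh v w _ _ (hdiff v w x'),
      smul_eq_mul, smul_eq_mul, map_add, map_mul, map_mul, hpiphi, hpiphi]
  let η : V → V → R →+ R := fun v w => AddMonoidHom.mk' (hf v w) (hhadd v w)
  choose H hH1 hH2 using fun v w => hKSL p R R (η v w) (hhleib v w)
  refine ⟨{ θ := Θ, h := H, θ_smul := hΘ1, h_smul := ?_, θ_closed := ?_, h_add := ?_,
            h_d := ?_ }, ?_, ?_⟩
  · intro v v' a w
    rw [hH1]
    rfl
  · intro v w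
    exact closed (Θ v) (hΘ1 v) (fun a => ⟨_, hΘ2 v a⟩) w
  · intro v v' v'' w
    induction w using ind with
    | h0 => rw [map_zero, map_zero, map_zero, add_zero]
    | hD a =>
      rw [hH2, hH2, hH2]
      change (π (yy v' (lift a)) - π (yy v (lift a))) +
        (π (yy v'' (lift a)) - π (yy v' (lift a))) = π (yy v'' (lift a)) - π (yy v (lift a))
      ring
    | ha w w' h2 h3 => rw [map_add, map_add, map_add, ← h2, ← h3]; ring
    | hs a w h2 => rw [hH1, hH1, hH1, ← h2, smul_add]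
  · intro v v' w
    induction w using ind with
    | h0 => rw [map_zero, map_zero, map_zero, map_zero, sub_zero]
    | hD a =>
      rw [hH2, hΘ2, hΘ2]
      change D (ZMod p) R (π (yy v' (lift a)) - π (yy v (lift a))) =
        (a ^ (p - 1) • D (ZMod p) R a + D (ZMod p) R (π (yy v' (lift a)))) -
        (a ^ (p - 1) • D (ZMod p) R a + D (ZMod p) R (π (yy v (lift a))))
      rw [map_sub]
      abel
    | ha w w' h2 h3 => rw [map_add, map_add, map_add, map_add, h2, h3]; abel
    | hs a w h2 => rw [hH1, hΘ1, hΘ1, smul_eq_mul, D_pow_mul, h2, smul_sub]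
  · intro v x y h
    change Θ v _ = _
    rw [hΘ2]
    exact hδ v x y h
  · intro v w x y h
    change H v w _ = _
    rw [hH2]
    exact hh v w x y h

end

end Pool.Agent.DBX.DIA
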