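import Pool.Agent.DBX.SER.All
import Pool.Agent.DBX.DIB.All
import Pool.Agent.DBX.DIA2.All
import Pool.Agent.DBX.DIA.TNZ
import Pool.Agent.DBX.DIA.RDU
import Pool.Agent.DBX.DIA.LGD
import Pool.Agent.DBX.DIA.NIL
import Pool.Agent.DBX.DIA.COF
import Pool.Agent.DBX.DIA.LCA
import Pool.Agent.DBX.DIA.ASG
import Pool.Agent.DBX.DIA.CHT
import Pool.Agent.DBX.DIA.LOG
import Pool.Agent.DBX.DIA.MCL
import Pool.Agent.DBX.DIA.RAS
import Pool.Agent.DBX.DIA.ETB
import Pool.Agent.DBX.DIA.RED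
import Pool.Agent.DBX.DIA.LIA
import Pool.Agent.DBX.DIA.LIF
import Pool.Agent.DBX.DIA.LIS
import Pool.Agent.DBX.DIA.LFR
import Pool.Agent.DBX.DIA.KSL
import Pool.Agent.DBX.DIA.THH
import Pool.Agent.DBX.DIA.FRB
import Pool.Agent.DBX.DIA.GOO
import Pool.Agent.DBX.DIA.CRT
import Pool.Agent.DBX.DIA.COH
import Pool.Agent.DBX.DIA.FNT
import Pool.Agent.DBX.DIA.BIN
import Pool.Agent.DBX.DIA.FIN

/-!
# DBX, area DIA: assembly.  The theorem of Deligne and Illusie in the form `Stmt_DI`.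
-/

set_option autoImplicit false

namespace Pool.Agent.DBX.DIA

open Pool.Agent.DBX

universe u

theorem a_tnz : Stmt_TNZ.{u} := tnz_proof

theorem a_rdu : Stmt_RDU.{u} := rdu_proof DIA2.a_pbg.{u} DIA2.a_pbi.{u}

theorem a_lgd : Stmt_LGD.{u} := lgd_proof DIA2.a_dif.{u} a_rdu

theorem a_nil : Stmt_NIL.{u} := nil_proof DIA2.a_dif.{u}

theorem a_cof : Stmt_COF.{u} := cof_proof DIA2.a_dif.{u} DIA2.a_frm.{u}

theorem a_lca : Stmt_LCA.{u} := lca_proof

theorem a_asg : Stmt_ASG.{u} := asg_proof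

theorem a_cht : Stmt_CHT.{u} := cht_proof a_asg a_lca

theorem a_log : Stmt_LOG.{u} := log_proof DIA2.a_dif.{u} a_lgd a_cht

theorem a_mcl : Stmt_MCL.{u} := mcl_proof a_log

theorem a_ras : Stmt_RAS.{u} := ras_proof

theorem a_etb : Stmt_ETB.{u} := etb_proof

theorem a_red : Stmt_RED.{u} := red_proof a_ras a_etb

theorem a_lia : Stmt_LIA.{u} := lia_proof

theorem a_lif : Stmt_LIF.{u} := lif_proof a_lca

theorem a_lis : Stmt_LIS.{u} := lis_proof a_asg a_lia a_lif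

theorem a_lfr : Stmt_LFR.{u} := lfr_proof a_ras a_red a_cht a_tnz

theorem a_ksl : Stmt_KSL.{u} := ksl_proof

theorem a_thh : Stmt_THH.{u} := thh_proof a_ksl

theorem a_frb : Stmt_FRB.{u} := frb_proof a_lis a_lfr a_thh a_ras

theorem a_goo : Stmt_GOO.{u} := goo_proof a_cht DIA2.a_dif.{u}

theorem a_crt : Stmt_CRT.{u} := crt_proof DIB.a_phv.{u} a_cht a_mcl DIA2.a_car.{u}

theorem a_coh : Stmt_COH.{u} := coh_proof a_asg a_cht a_mcl a_cof

theorem a_fnt : Stmt_FNT.{u} := fnt_proof SER.a_ser1.{u, 0} a_coh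

theorem a_bin : Stmt_BIN.{u} := bin_proof a_cht a_nil a_goo a_crt a_fnt DIB.a_dib.{u}

/-- The theorem of Deligne and Illusie. -/
theorem a_di : Pool.Agent.DBX.Stmt_DI.{u} := fin_proof a_ras a_red a_frb a_bin

end Pool.Agent.DBX.DIA
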