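import Pool.Agent.DBX.Interface
import Pool.Agent.DBX.DIB.Stmts
import Pool.Agent.DBX.DIA2.Stmts

/-!
# DBX, area DIA: Deligne-Illusie, Frobenius lifts and logarithmic lattices.  Definitions.
-/

set_option autoImplicit false

namespace Pool.Agent.DBX.DIA

open KaehlerDifferential Pool.Agent.DBE Pool.Agent.DBX Pool.Agent.DBX.DIB Pool.Agent.DBX.DIA2

universe u

noncomputable section

/-- A projective model over `F_p` with logarithmic étale coordinates. -/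
structure BMod (p : ℕ) (R : Type u) [CommRing R] [Algebra (ZMod p) R] (m N : ℕ) where
  h : Fin m → Rˣ
  A : Fin m → Subalgebra (ZMod p) R
  t : Fin m → Fin N → Rˣ
  c : Fin m → Fin N → ℕ
  c' : Fin m → Fin N → ℕ

namespace BMod

variable {p : ℕ} {R : Type u} [CommRing R] [Algebra (ZMod p) R] {m N : ℕ}

/-- coordinate ring of the intersection of the charts `v ∈ σ` -/
def As (X : BMod p R m N) (σ : Finset (Fin m)) : Subalgebra (ZMod p) R :=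
  ⨆ v ∈ σ, X.A v

structure Good (X : BMod p R m N) : Prop where
  t_mem : ∀ v i, (X.t v i : R) ∈ X.A v
  h_mem : ∀ v w, (X.h w : R) * ((X.h v)⁻¹ : Rˣ) ∈ X.A v
  glue : ∀ v w, X.A w ≤ Algebra.adjoin (ZMod p)
    ((X.A v : Set R) ∪ {(X.h v : R) * ((X.h w)⁻¹ : Rˣ)})
  fin : ∀ v, ∃ G : Finset R, (G : Set R) ⊆ X.A v ∧
    ∀ x ∈ X.A v, x ∈ Submodule.span (Prg (ZMod p) X.h {v}) (G : Set R)
  loc : ∀ v, ∀ x : R, ∃ e : ℕ, x * (∏ w, (X.h w : R) * ((X.h v)⁻¹ : Rˣ)) ^ e *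
    (∏ i, (X.t v i : R) ^ X.c v i) ^ e ∈ X.A v
  etale : ∀ v, (MvPolynomial.aeval (R := ZMod p)
    (fun i => (⟨(X.t v i : R), t_mem v i⟩ : X.A v))).toRingHom.Etale
  c_le : ∀ v i, X.c v i ≤ 1
  c'_le : ∀ v i, X.c' v i ≤ p
  c_supp : ∀ v i, X.c v i = 0 ↔ X.c' v i = 0
  t_inv : ∀ v i, X.c v i = 0 → (((X.t v i)⁻¹ : Rˣ) : R) ∈ X.A v
  c_glue : ∀ v w, (∏ i, (X.t v i : R) ^ X.c v i) * (∏ i, (((X.t w i)⁻¹ : Rˣ) : R) ^ X.c w i) ∈
    X.As {v, w}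
  c'_glue : ∀ v w, (∏ i, (X.t v i : R) ^ X.c' v i) *
    (∏ i, (((X.t w i)⁻¹ : Rˣ) : R) ^ X.c' w i) ∈ X.As {v, w}

/-- the function `∏ t_v^e_v` with `v = min s` -/
def T (X : BMod p R m N) (e : Fin m → Fin N → ℕ) (s : Finset (Fin m)) : R :=
  if hs : s.Nonempty then mon (X.t (s.min' hs)) (e (s.min' hs)) else 1

/-- the lattices: `A s` and the logarithmic one-forms -/
def lat (X : BMod p R m N) : Lat (Fin m) (ZMod p) R where
  A s := (X.As s).toSubring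
  W s := (Submodule.span (X.As s) {w : Ω[R⁄ZMod p] | ∃ v ∈ s, ∃ i, w = lg (X.t v i)}).toAddSubgroup

/-- the lattice `K T s` as a vector space -/
def KM (X : BMod p R m N) (e : Fin m → Fin N → ℕ) (s : Finset (Fin m)) :
    Submodule (ZMod p) (DR (ZMod p) R) :=
  AddSubgroup.toZModSubmodule p (X.lat.K (X.T e) s)

/-- the properties of the Frobenius data on the coordinates -/
structure FGood (X : BMod p R m N) (F : Frob p (Fin m) (ZMod p) R) : Prop where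
  θ_t : ∀ v i, F.θ v (lg (X.t v i)) = lg (X.t v i)
  θ_mem : ∀ σ, ∀ v ∈ σ, ∀ w ∈ σ, ∀ i, ∃ a ∈ X.As σ,
    F.θ w (lg (X.t v i)) = lg (X.t v i) + D (ZMod p) R a
  h_mem : ∀ σ, ∀ v ∈ σ, ∀ w ∈ σ, ∀ z ∈ σ, ∀ i, F.h w z (lg (X.t v i)) ∈ X.As σ

end BMod

/-- `R = Q / p Q` -/
structure Red (p : ℕ) {Q R : Type u} [CommRing Q] [CommRing R] (π : Q →+* R) : Prop where
  surj : Function.Surjective π
  ker : ∀ x, π x = 0 ↔ ∃ y, x = (p : Q) * y

/-- the model modulo `p` -/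
def red {p : ℕ} {Q R : Type u} [CommRing Q] [CommRing R] [Algebra (ZMod (p ^ 2)) Q]
    [Algebra (ZMod p) R] {m N : ℕ} (Y : DMod p Q m N) (π : Q →+* R) : BMod p R m N where
  h v := Units.map (π : Q →* R) (Y.h v)
  A v := Algebra.adjoin (ZMod p) (π '' (Y.A v : Set Q))
  t v i := Units.map (π : Q →* R) (Y.t v i)
  c := Y.c
  c' := Y.c'

/-- Frobenius lifts `φ v` adapted to the charts -/
structure Lift {p : ℕ} {Q : Type u} [CommRing Q] [Algebra (ZMod (p ^ 2)) Q] {m N : ℕ}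
    (Y : DMod p Q m N) (φ : Fin m → Q →+* Q) : Prop where
  frob : ∀ v x, ∃ y, φ v x = x ^ p + (p : Q) * y
  As : ∀ σ, ∀ v ∈ σ, ∀ x ∈ Y.As σ, ∃ y ∈ Y.As σ, φ v x = x ^ p + (p : Q) * y
  t : ∀ v i, φ v (Y.t v i : Q) = (Y.t v i : Q) ^ p

end

end Pool.Agent.DBX.DIA
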