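import Pool.Agent.DBX.DIA.Stmts

/-!
# DBX, area DIA, module RED: the model modulo `p`.
-/

set_option autoImplicit false

namespace Pool.Agent.DBX.DIA

open KaehlerDifferential Pool.Agent.DBE Pool.Agent.DBX Pool.Agent.DBX.DIB Pool.Agent.DBX.DIA2

universe u

namespace RED_

theorem alg {p : ℕ} [Fact p.Prime] {Q R : Type u} [CommRing Q] [CommRing R]
    [Algebra (ZMod (p ^ 2)) Q] [Algebra (ZMod p) R] (π : Q →+* R) (z : ZMod (p ^ 2)) :
    ∃ z' : ZMod p, π (algebraMap (ZMod (p ^ 2)) Q z) = algebraMap (ZMod p) R z' := by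
  have : NeZero (p ^ 2) := ⟨pow_ne_zero 2 (Fact.out : p.Prime).ne_zero⟩
  obtain ⟨a, rfl⟩ := ZMod.natCast_zmod_surjective z
  exact ⟨(a : ZMod p), by rw [map_natCast, map_natCast, map_natCast]⟩

theorem adj {p : ℕ} [Fact p.Prime] {Q R : Type u} [CommRing Q] [CommRing R]
    [Algebra (ZMod (p ^ 2)) Q] [Algebra (ZMod p) R] (π : Q →+* R) (S : Set Q)
    (B : Subalgebra (ZMod p) R) (h : ∀ y ∈ S, π y ∈ B) (y : Q)
    (hy : y ∈ Algebra.adjoin (ZMod (p ^ 2)) S) : π y ∈ B := by
  induction hy using Algebra.adjoin_induction with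
  | mem x hx => exact h x hx
  | algebraMap r =>
    obtain ⟨z', hz'⟩ := alg (R := R) π r
    rw [hz']
    exact B.algebraMap_mem z'
  | add x y _ _ h1 h2 => rw [map_add]; exact B.add_mem h1 h2
  | mul x y _ _ h1 h2 => rw [map_mul]; exact B.mul_mem h1 h2

end RED_

open RED_ in
theorem red_proof (hRAS : Stmt_RAS.{u}) (hETB : Stmt_ETB.{u}) : Stmt_RED.{u} := by
  intro p _ Q R _ _ _ _ m N Y π hY hπ
  obtain ⟨memA, memAs⟩ := hRAS p Q R m N Y π
  have t_mem : ∀ v i, ((red Y π).t v i : R) ∈ (red Y π).A v := fun v i =>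
    (memA v _).2 ⟨_, hY.t_mem v i, rfl⟩
  refine
    { t_mem := t_mem
      h_mem := fun v w => (memA v _).2 ⟨_, hY.h_mem v w, map_mul _ _ _⟩
      glue := ?_
      fin := ?_
      loc := ?_
      etale := ?_
      c_le := hY.c_le
      c'_le := hY.c'_le
      c_supp := hY.c_supp
      t_inv := fun v i h => (memA v _).2 ⟨_, hY.t_inv v i h, rfl⟩
      c_glue := ?_
      c'_glue := ?_ }
  · intro v w x hx
    obtain ⟨y, hy, rfl⟩ := (memA w x).1 hx
    refine adj π _ _ ?_ y (hY.glue v w hy)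
    rintro z (hz | hz)
    · exact Algebra.subset_adjoin (Or.inl ((memA v _).2 ⟨z, hz, rfl⟩))
    · rw [Set.mem_singleton_iff.1 hz]
      refine Algebra.subset_adjoin (Or.inr ?_)
      exact map_mul _ _ _
  · intro v
    classical
    obtain ⟨G, hG1, hG2⟩ := hY.fin v
    refine ⟨G.image π, ?_, ?_⟩
    · intro x hx
      rw [Finset.coe_image] at hx
      obtain ⟨y, hy, rfl⟩ := hx
      exact (memA v _).2 ⟨y, hG1 hy, rfl⟩
    · intro x hx
      obtain ⟨y, hy, rfl⟩ := (memA v x).1 hx
      have h1 := hG2 y hy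
      clear hx hy
      induction h1 using Submodule.span_induction with
      | mem z hz => exact Submodule.subset_span (by
          rw [Finset.coe_image]; exact ⟨z, hz, rfl⟩)
      | zero => rw [map_zero]; exact Submodule.zero_mem _
      | add z z' _ _ h1 h2 => rw [map_add]; exact Submodule.add_mem _ h1 h2
      | smul c z _ h1 =>
        have hc : π (c : Q) ∈ Prg (ZMod p) (red Y π).h {v} := by
          refine adj π _ _ ?_ (c : Q) c.2
          intro y hy
          refine Algebra.subset_adjoin ?_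
          obtain ⟨w, w', hw, rfl⟩ := hy
          exact ⟨w, w', hw, map_mul _ _ _⟩
        have h2 : π (c • z) = (⟨π (c : Q), hc⟩ : Prg (ZMod p) (red Y π).h {v}) • π z := by
          change π ((c : Q) * z) = π (c : Q) * π z
          exact map_mul _ _ _
        rw [h2]
        exact Submodule.smul_mem _ _ h1
  · intro v x
    obtain ⟨y, rfl⟩ := hπ.surj x
    obtain ⟨e, he⟩ := hY.loc v y
    refine ⟨e, (memA v _).2 ⟨_, he, ?_⟩⟩
    simp only [map_mul, map_pow, map_prod]
    rfl
  · intro v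
    refine hETB p Q R π hπ N (Y.A v) (fun i => (Y.t v i : Q)) (hY.t_mem v) ?_ (hY.etale v)
      ((red Y π).A v) (t_mem v) (memA v)
    have h1 : Y.As {v} = Y.A v := by simp [DMod.As]
    have h2 := hY.sat {v} (Finset.singleton_nonempty v)
    rw [h1] at h2
    exact h2
  · intro v w
    refine (memAs _ _).2 ⟨_, hY.c_glue v w, ?_⟩
    simp only [map_mul, map_pow, map_prod]
    rfl
  · intro v w
    refine (memAs _ _).2 ⟨_, hY.c'_glue v w, ?_⟩
    simp only [map_mul, map_pow, map_prod]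
    rfl

end Pool.Agent.DBX.DIA
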