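import Pool.Agent.DBX.DIA.Defs

/-!
# DBX, area DIA: Deligne-Illusie, Frobenius lifts and logarithmic lattices.  Statements.
-/

set_option autoImplicit false

namespace Pool.Agent.DBX.DIA

open KaehlerDifferential Pool.Agent.DBE Pool.Agent.DBX Pool.Agent.DBX.DIB Pool.Agent.DBX.DIA2

universe u

noncomputable section

/-! ## Charts -/

/-- TNZ: different coordinates form regular sequences. -/
def Stmt_TNZ : Prop :=
  ∀ (p : ℕ) [Fact p.Prime] (N : ℕ) (R : Type u) [CommRing R] [Algebra (ZMod p) R]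
    (A : Subalgebra (ZMod p) R) (t : Fin N → Rˣ), Chart p R A t →
    ∀ (j : Fin N) (a : Fin N → ℕ) (b : ℕ), a j = 0 → ∀ x ∈ A, ∀ y ∈ A,
      x * mon t a = (t j : R) ^ b * y → ∃ z ∈ A, x = (t j : R) ^ b * z

/-- RDU: the divisor `∏ t_i ^ c_i`, `c_i ≤ 1`, is reduced. -/
def Stmt_RDU : Prop :=
  ∀ (p : ℕ) [Fact p.Prime] (N : ℕ) (R : Type u) [CommRing R] [Algebra (ZMod p) R] [CharP R p]
    (A : Subalgebra (ZMod p) R) (t : Fin N → Rˣ), Chart p R A t →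
    ∀ (c : Fin N → ℕ), (∀ i, c i ≤ 1) → ∀ x ∈ A, ∀ y ∈ A,
      x ^ 2 = mon t c * y → ∃ z ∈ A, x = mon t c * z

/-- LGD: the logarithmic differentials of the divisors of `∏ t_i ^ c_i` are combinations of the
`dlog t_i`. -/
def Stmt_LGD : Prop :=
  ∀ (p : ℕ) [Fact p.Prime] (N : ℕ) (R : Type u) [CommRing R] [Algebra (ZMod p) R] [CharP R p]
    (A : Subalgebra (ZMod p) R) (t : Fin N → Rˣ), Chart p R A t →
    ∀ (c : Fin N → ℕ), (∀ i, c i ≤ 1) → ∀ (f : Rˣ) (g : R) (w : Rˣ), (f : R) ∈ A → g ∈ A →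
      (w : R) ∈ A → ((w⁻¹ : Rˣ) : R) ∈ A → (f : R) * g = w * mon t c →
      ∃ a : Fin N → R, (∀ i, a i ∈ A) ∧ lg (p := p) f = ∑ i, a i • lg (p := p) (t i)

/-- NIL: products of `p` one-forms vanish if `N < p`. -/
def Stmt_NIL : Prop :=
  ∀ (p : ℕ) [Fact p.Prime] (N : ℕ) (R : Type u) [CommRing R] [Algebra (ZMod p) R]
    (A : Subalgebra (ZMod p) R) (t : Fin N → Rˣ), Chart p R A t → N < p →
    ∀ w : Fin p → Ω[R⁄ZMod p], ExteriorAlgebra.ιMulti R p w = 0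

/-- COF: the logarithmic forms are finite over `P` if `A` is finite over `P`. -/
def Stmt_COF : Prop :=
  ∀ (p : ℕ) [Fact p.Prime] (N : ℕ) (R : Type u) [CommRing R] [Algebra (ZMod p) R] [CharP R p]
    (A P : Subalgebra (ZMod p) R) (t : Fin N → Rˣ), Chart p R A t → P ≤ A →
    (∃ G : Finset R, (G : Set R) ⊆ A ∧ ∀ x ∈ A, x ∈ Submodule.span P (G : Set R)) →
    ∃ G : Finset (DR (ZMod p) R), (∀ x ∈ G, x ∈ LM A t) ∧
      ∀ x ∈ LM A t, x ∈ Submodule.span P (G : Set (DR (ZMod p) R))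

/-- LCA: localisation inside `Q`. -/
def Stmt_LCA : Prop :=
  ∀ (Λ : Type) (Q : Type u) [CommRing Λ] [CommRing Q] [Algebra Λ Q] (A : Subalgebra Λ Q)
    (g : Qˣ) (hg : (g : Q) ∈ A),
    ((∀ x : Q, ∃ e : ℕ, x * (g : Q) ^ e ∈ A) → IsLocalization.Away (⟨(g : Q), hg⟩ : A) Q) ∧
    ∀ (B : Subalgebra Λ Q) (hAB : A ≤ B), ((g⁻¹ : Qˣ) : Q) ∈ B →
      (∀ x ∈ B, ∃ e : ℕ, x * (g : Q) ^ e ∈ A) →
      ∀ (P : Type) [CommRing P] (f : P →+* A), f.Etale →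
        (((Subalgebra.inclusion hAB : A →ₐ[Λ] B) : A →+* B).comp f).Etale

/-- ASG: the coordinate rings of the intersections of charts. -/
def Stmt_ASG : Prop :=
  ∀ (Λ : Type) (Q : Type u) [CommRing Λ] [CommRing Q] [Algebra Λ Q] (m : ℕ) (h : Fin m → Qˣ)
    (A : Fin m → Subalgebra Λ Q), (∀ v w, (h w : Q) * ((h v)⁻¹ : Qˣ) ∈ A v) →
    (∀ v w, A w ≤ Algebra.adjoin Λ ((A v : Set Q) ∪ {(h v : Q) * ((h w)⁻¹ : Qˣ)})) →
    (∀ σ, Prg Λ h σ ≤ ⨆ w ∈ σ, A w) ∧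
    (∀ (σ : Finset (Fin m)), ∀ v ∈ σ, ∀ B : Subalgebra Λ Q, A v ≤ B →
      (∀ w ∈ σ, (h v : Q) * ((h w)⁻¹ : Qˣ) ∈ B) → (⨆ w ∈ σ, A w) ≤ B) ∧
    (∀ (σ : Finset (Fin m)), ∀ v ∈ σ, ∀ x ∈ ⨆ w ∈ σ, A w, ∃ e : ℕ,
      x * (∏ w ∈ σ, (h w : Q) * ((h v)⁻¹ : Qˣ)) ^ e ∈ A v) ∧
    ∀ (σ τ : Finset (Fin m)), σ.Nonempty → σ ⊆ τ → ∀ x ∈ ⨆ w ∈ τ, A w,
      x ∈ Submodule.span (Prg Λ h τ) ((⨆ w ∈ σ, A w : Subalgebra Λ Q) : Set Q)

/-- CHT: intersections of charts are charts. -/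
def Stmt_CHT : Prop :=
  ∀ (p : ℕ) [Fact p.Prime] (R : Type u) [CommRing R] [Algebra (ZMod p) R] (m N : ℕ)
    (X : BMod p R m N), X.Good → ∀ σ, ∀ v ∈ σ, Chart p R (X.As σ) (X.t v)

/-- LOG: the logarithmic lattice does not depend on the chart. -/
def Stmt_LOG : Prop :=
  ∀ (p : ℕ) [Fact p.Prime] (R : Type u) [CommRing R] [Algebra (ZMod p) R] [CharP R p] (m N : ℕ)
    (X : BMod p R m N), X.Good → ∀ σ, ∀ v ∈ σ, ∀ w ∈ σ, ∀ j, ∃ a : Fin N → R,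
      (∀ i, a i ∈ X.As σ) ∧ lg (p := p) (X.t w j) = ∑ i, a i • lg (p := p) (X.t v i)

/-- MCL: the ring of logarithmic forms in the coordinates of one chart. -/
def Stmt_MCL : Prop :=
  ∀ (p : ℕ) [Fact p.Prime] (R : Type u) [CommRing R] [Algebra (ZMod p) R] [CharP R p] (m N : ℕ)
    (X : BMod p R m N), X.Good → ∀ σ, ∀ v ∈ σ, X.lat.M σ = LM (X.As σ) (X.t v) ∧
      ∀ e : Fin m → Fin N → ℕ, (e = X.c ∨ e = X.c') → ∀ x : DR (ZMod p) R,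
        x ∈ X.lat.K (X.T e) σ ↔
          ∃ y ∈ LM (X.As σ) (X.t v), x = fn (ZMod p) R (mon (X.t v) (e v)) * y

/-! ## Reduction modulo `p` -/

/-- RAS: images of the coordinate rings. -/
def Stmt_RAS : Prop :=
  ∀ (p : ℕ) [Fact p.Prime] (Q R : Type u) [CommRing Q] [CommRing R] [Algebra (ZMod (p ^ 2)) Q]
    [Algebra (ZMod p) R] (m N : ℕ) (Y : DMod p Q m N) (π : Q →+* R),
    (∀ v x, x ∈ (red Y π).A v ↔ ∃ y ∈ Y.A v, π y = x) ∧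
    ∀ σ, ∀ x, x ∈ (red Y π).As σ ↔ ∃ y ∈ Y.As σ, π y = x

/-- ETB: base change of étale coordinates to `F_p`. -/
def Stmt_ETB : Prop :=
  ∀ (p : ℕ) [Fact p.Prime] (Q R : Type u) [CommRing Q] [CommRing R] [Algebra (ZMod (p ^ 2)) Q]
    [Algebra (ZMod p) R] (π : Q →+* R), Red p π →
    ∀ (N : ℕ) (A : Subalgebra (ZMod (p ^ 2)) Q) (t : Fin N → Q) (ht : ∀ i, t i ∈ A),
    (∀ x : Q, (p : Q) * x ∈ A → ∃ y ∈ A, (p : Q) * y = (p : Q) * x) →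
    (MvPolynomial.aeval (R := ZMod (p ^ 2)) (fun i => (⟨t i, ht i⟩ : A))).toRingHom.Etale →
    ∀ (B : Subalgebra (ZMod p) R) (ht' : ∀ i, π (t i) ∈ B), (∀ x, x ∈ B ↔ ∃ y ∈ A, π y = x) →
    (MvPolynomial.aeval (R := ZMod p) (fun i => (⟨π (t i), ht' i⟩ : B))).toRingHom.Etale

/-- RED: the model modulo `p`. -/
def Stmt_RED : Prop :=
  ∀ (p : ℕ) [Fact p.Prime] (Q R : Type u) [CommRing Q] [CommRing R] [Algebra (ZMod (p ^ 2)) Q]
    [Algebra (ZMod p) R] (m N : ℕ) (Y : DMod p Q m N) (π : Q →+* R), Y.Good → Red p π →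
    (red Y π).Good

/-! ## Frobenius lifts -/

/-- LIA: Frobenius lifts on étale algebras over `(Z/p²)[T]`. -/
def Stmt_LIA : Prop :=
  ∀ (p : ℕ) [Fact p.Prime] (A : Type u) [CommRing A] [Algebra (ZMod (p ^ 2)) A] (N : ℕ)
    (t : Fin N → A), (MvPolynomial.aeval (R := ZMod (p ^ 2)) t).toRingHom.Etale →
    ∃ φ : A →+* A, (∀ x, ∃ y, φ x = x ^ p + (p : A) * y) ∧ ∀ i, φ (t i) = t i ^ p

/-- LIF: extension of Frobenius lifts to localisations. -/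
def Stmt_LIF : Prop :=
  ∀ (p : ℕ) [Fact p.Prime] (Q : Type u) [CommRing Q] [Algebra (ZMod (p ^ 2)) Q]
    (A : Subalgebra (ZMod (p ^ 2)) Q) (g : Qˣ), (g : Q) ∈ A →
    (∀ x : Q, ∃ e : ℕ, x * (g : Q) ^ e ∈ A) →
    ∀ φ : A →+* A, (∀ x, ∃ y, φ x = x ^ p + (p : A) * y) →
    ∃ ψ : Q →+* Q, (∀ x : A, ψ (x : Q) = (φ x : Q)) ∧ ∀ x, ∃ y, ψ x = x ^ p + (p : Q) * y

/-- LIS: existence of the adapted Frobenius lifts. -/
def Stmt_LIS : Prop :=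
  ∀ (p : ℕ) [Fact p.Prime] (Q : Type u) [CommRing Q] [Algebra (ZMod (p ^ 2)) Q] (m N : ℕ)
    (Y : DMod p Q m N), Y.Good → ∃ φ : Fin m → Q →+* Q, Lift Y φ

/-- LFR: the Frobenius lift of one chart on the coordinates of another chart. -/
def Stmt_LFR : Prop :=
  ∀ (p : ℕ) [Fact p.Prime] (Q R : Type u) [CommRing Q] [CommRing R] [Algebra (ZMod (p ^ 2)) Q]
    [Algebra (ZMod p) R] (m N : ℕ) (Y : DMod p Q m N) (π : Q →+* R), Y.Good → Red p π →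
    ∀ φ : Fin m → Q →+* Q, Lift Y φ → ∀ σ, ∀ v ∈ σ, ∀ w ∈ σ, ∀ i,
      ∃ a ∈ Y.As σ, φ w (Y.t v i : Q) = (Y.t v i : Q) ^ p * (1 + (p : Q) * a)

/-- KSL: semilinear maps on differentials. -/
def Stmt_KSL : Prop :=
  ∀ (p : ℕ) [Fact p.Prime] (R : Type u) [CommRing R] [Algebra (ZMod p) R] [CharP R p]
    (M : Type u) [AddCommGroup M] [Module R M] (δ : R →+ M),
    (∀ a b, δ (a * b) = a ^ p • δ b + b ^ p • δ a) →
    ∃ Θ : Ω[R⁄ZMod p] →+ M, (∀ (a : R) w, Θ (a • w) = a ^ p • Θ w) ∧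
      ∀ a, Θ (D (ZMod p) R a) = δ a

/-- THH: the maps `θ` and `h` attached to Frobenius lifts. -/
def Stmt_THH : Prop :=
  ∀ (p : ℕ) [Fact p.Prime] (V : Type) (Q R : Type u) [CommRing Q] [CommRing R]
    [Algebra (ZMod p) R] [CharP R p] (π : Q →+* R), Red p π → (p : Q) ^ 2 = 0 →
    (∀ x : Q, (p : Q) * x = 0 → ∃ y, x = (p : Q) * y) →
    ∀ φ : V → Q →+* Q, (∀ v x, ∃ y, φ v x = x ^ p + (p : Q) * y) →
    ∃ F : Frob p V (ZMod p) R,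
      (∀ v x y, φ v x = x ^ p + (p : Q) * y → F.θ v (D (ZMod p) R (π x)) =
        (π x) ^ (p - 1) • D (ZMod p) R (π x) + D (ZMod p) R (π y)) ∧
      ∀ v w x y, φ w x = φ v x + (p : Q) * y → F.h v w (D (ZMod p) R (π x)) = π y

/-- FRB: existence of good Frobenius data. -/
def Stmt_FRB : Prop :=
  ∀ (p : ℕ) [Fact p.Prime] (Q R : Type u) [CommRing Q] [CommRing R] [Algebra (ZMod (p ^ 2)) Q]
    [Algebra (ZMod p) R] [CharP R p] (m N : ℕ) (Y : DMod p Q m N) (π : Q →+* R), Y.Good →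
    Red p π → ∃ F : Frob p (Fin m) (ZMod p) R, (red Y π).FGood F

/-! ## The hypotheses of `Stmt_DIB` -/

/-- GOO: the lattices are good. -/
def Stmt_GOO : Prop :=
  ∀ (p : ℕ) [Fact p.Prime] (R : Type u) [CommRing R] [Algebra (ZMod p) R] [CharP R p] (m N : ℕ)
    (X : BMod p R m N) (F : Frob p (Fin m) (ZMod p) R), X.Good → X.FGood F →
    X.lat.Good F (X.T X.c) ∧ X.lat.Good F (X.T X.c')

/-- CRT: the Cartier property of the lattices. -/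
def Stmt_CRT : Prop :=
  ∀ (p : ℕ) [Fact p.Prime] (R : Type u) [CommRing R] [Algebra (ZMod p) R] [CharP R p] (m N : ℕ)
    (X : BMod p R m N) (F : Frob p (Fin m) (ZMod p) R), X.Good → X.FGood F →
    X.lat.Cartier F (X.T X.c) (X.T X.c) ∧ X.lat.Cartier F (X.T X.c) (X.T X.c')

/-- COH: the lattices are coherent. -/
def Stmt_COH : Prop :=
  ∀ (p : ℕ) [Fact p.Prime] (R : Type u) [CommRing R] [Algebra (ZMod p) R] [CharP R p] (m N : ℕ)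
    (X : BMod p R m N), X.Good → Coh X.h (X.KM X.c)

/-- FNT: finiteness of the cohomology. -/
def Stmt_FNT : Prop :=
  ∀ (p : ℕ) [Fact p.Prime] (R : Type u) [CommRing R] [Algebra (ZMod p) R] [CharP R p] (m N : ℕ)
    (X : BMod p R m N), X.Good → ∃ S : Set (Finset (Fin m) → DR (ZMod p) R), S.Finite ∧
      ∀ x ∈ X.lat.C (X.T X.c), cd x = 0 → ∃ g ∈ S, ∃ y ∈ X.lat.C (X.T X.c), x = g + cd y

/-- BIN: the injectivity theorem for the model over `F_p`. -/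
def Stmt_BIN : Prop :=
  ∀ (p : ℕ) [Fact p.Prime] (R : Type u) [CommRing R] [Algebra (ZMod p) R] [CharP R p] (m N : ℕ)
    (X : BMod p R m N) (F : Frob p (Fin m) (ZMod p) R), X.Good → X.FGood F → N < p →
    ∀ z : Finset (Fin m) → R, z ∅ = 0 →
      (∀ s, s.Nonempty → ∃ a ∈ X.As s, z s = X.T X.c s * a) → cd z = 0 →
      ∃ z' y : Finset (Fin m) → R, z' ∅ = 0 ∧
        (∀ s, s.Nonempty → ∃ a ∈ X.As s, z' s = X.T X.c' s * a) ∧ cd z' = 0 ∧ y ∅ = 0 ∧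
        (∀ s, s.Nonempty → ∃ a ∈ X.As s, y s = X.T X.c s * a) ∧ z = z' + cd y

end

end Pool.Agent.DBX.DIA
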